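import Pool.Agent.W666.GB.MD

/-!
# Expansion of the double alternating form
-/

set_option autoImplicit false

namespace Pool.Agent.W666.GB

open Finset

section ext

variable {B : Type*} [Fintype B] [DecidableEq B] (T : Finset B)

/-- inclusion of blocks -/
def iT (a : T × Bool) : B × Bool := (a.1.1, a.2)

omit [Fintype B] [DecidableEq B] in
theorem iT_injective : Function.Injective (iT T) := by
  rintro ⟨⟨a, ha⟩, b⟩ ⟨⟨a', ha'⟩, b'⟩ h
  simp only [iT, Prod.mk.injEq] at h
  obtain ⟨h1, h2⟩ := h
  subst h1; subst h2; rfl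

/-- blocks as a subtype -/
def fT : T × Bool ≃ {x : B × Bool // x.1 ∈ T} where
  toFun a := ⟨iT T a, a.1.2⟩
  invFun x := (⟨x.1.1, x.2⟩, x.1.2)
  left_inv _ := rfl
  right_inv _ := rfl

/-- extension of permutations of the blocks in `T` -/
def xT (ρ : Equiv.Perm (T × Bool)) : Equiv.Perm (B × Bool) :=
  Equiv.Perm.ofSubtype ((fT T).permCongr ρ)

omit [Fintype B] in
theorem xT_apply (ρ : Equiv.Perm (T × Bool)) (a : T × Bool) : xT T ρ (iT T a) = iT T (ρ a) := by
  exact Equiv.Perm.ofSubtype_apply_coe ((fT T).permCongr ρ) (fT T a)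

omit [Fintype B] in
theorem xT_fix (ρ : Equiv.Perm (T × Bool)) (x : B × Bool) (hx : x.1 ∉ T) : xT T ρ x = x :=
  Equiv.Perm.ofSubtype_apply_of_not_mem _ hx

theorem sn_xT (ρ : Equiv.Perm (T × Bool)) : sn (xT T ρ) = sn ρ := by
  unfold xT sn
  rw [Equiv.Perm.sign_ofSubtype, Equiv.Perm.sign_permCongr]

theorem xT_injective : Function.Injective (xT T) := by
  intro ρ ρ' h
  ext1 a
  apply iT_injective T
  rw [← xT_apply, ← xT_apply, h]

omit [Fintype B] in
theorem xT_range (ρ : Equiv.Perm (B × Bool)) (h : ∀ x : B × Bool, x.1 ∉ T → ρ x = x) :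
    ∃ ρ', xT T ρ' = ρ := by
  have h1 : ∀ x : B × Bool, (ρ x).1 ∈ T ↔ x.1 ∈ T := by
    intro x
    constructor
    · intro hx
      by_contra hn
      rw [h x hn] at hx
      exact hn hx
    · intro hx
      by_contra hn
      have := ρ.injective (h (ρ x) hn)
      rw [this] at hn
      exact hn hx
  refine ⟨(fT T).permCongr.symm (ρ.subtypePerm h1), ?_⟩
  unfold xT
  rw [Equiv.apply_symm_apply, Equiv.Perm.ofSubtype_subtypePerm]
  intro x hx
  by_contra hn
  exact hx (h x hn)

/-- the single alternating sum -/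
noncomputable def yf {T : Type*} [Fintype T] [DecidableEq T]
    (C : T × Bool → T × Bool → T × Bool → T × Bool → ℝ) : ℝ :=
  ∑ ρ : Equiv.Perm (T × Bool), sn ρ * ∏ b : T, C (b, false) (ρ (b, false)) (b, true) (ρ (b, true))

/-- pull back of a `4`-tensor along a map of index sets -/
def pb {J P : Type*} (C : J → J → J → J → ℝ) (i : P → J) : P → P → P → P → ℝ :=
  fun a b c d => C (i a) (i b) (i c) (i d)

theorem inner_T (κ : ℝ) (C : B × Bool → B × Bool → B × Bool → B × Bool → ℝ)
    (σ : Equiv.Perm (B × Bool)) :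
    ∑ τ : Equiv.Perm (B × Bool), sn σ * sn τ *
      ((∏ b ∈ T, C (σ (b, false)) (τ (b, false)) (σ (b, true)) (τ (b, true))) *
        ∏ b ∈ univ \ T, (κ * (if σ (b, false) = τ (b, false) then 1 else 0) *
          (if σ (b, true) = τ (b, true) then 1 else 0))) =
      κ ^ (Fintype.card B - T.card) * yf (pb C (σ ∘ iT T)) := by
  rw [← Equiv.sum_comp (Equiv.mulLeft σ)]
  simp only [Equiv.coe_mulLeft, sn_mul, Equiv.Perm.mul_apply, EmbeddingLike.apply_eq_iff_eq]
  rw [yf, Finset.mul_sum]
  symm
  refine Fintype.sum_of_injective (xT T) (xT_injective T) _ _ ?_ ?_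
  · intro ρ hρ
    have h1 : ∃ x : B × Bool, x.1 ∉ T ∧ ρ x ≠ x := by
      by_contra hn
      push Not at hn
      exact hρ (xT_range T ρ hn)
    obtain ⟨⟨b, β⟩, hb, hx⟩ := h1
    have h2 : ∏ b ∈ univ \ T, (κ * (if (b, false) = ρ (b, false) then 1 else 0) *
          (if (b, true) = ρ (b, true) then (1 : ℝ) else 0)) = 0 := by
      refine Finset.prod_eq_zero (i := b) (by simpa using hb) ?_
      cases β
      · rw [if_neg (Ne.symm hx)]; ring
      · rw [if_neg (Ne.symm hx)]; ring
    rw [h2]; ring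
  · intro ρ
    have h2 : ∏ b ∈ univ \ T, (κ * (if (b, false) = xT T ρ (b, false) then 1 else 0) *
          (if (b, true) = xT T ρ (b, true) then (1 : ℝ) else 0)) =
          κ ^ (Fintype.card B - T.card) := by
      have : ∀ b ∈ univ \ T, (κ * (if (b, false) = xT T ρ (b, false) then 1 else 0) *
          (if (b, true) = xT T ρ (b, true) then (1 : ℝ) else 0)) = κ := by
        intro b hb
        have hb' : b ∉ T := by simpa using hb
        rw [xT_fix T ρ (b, false) hb', xT_fix T ρ (b, true) hb']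
        simp
      rw [Finset.prod_congr rfl this, Finset.prod_const, Finset.card_sdiff_of_subset (subset_univ _),
        Finset.card_univ]
    have h3 : ∏ b ∈ T, C (σ (b, false)) (σ (xT T ρ (b, false))) (σ (b, true))
        (σ (xT T ρ (b, true))) = ∏ b : T, pb C (σ ∘ iT T) (b, false) (ρ (b, false)) (b, true)
          (ρ (b, true)) := by
      rw [← Finset.prod_coe_sort]
      refine Finset.prod_congr rfl fun b _ => ?_
      simp only [pb, Function.comp, ← xT_apply]
      rfl
    rw [h2, h3, sn_xT]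
    have := sn_mul_self σ
    linear_combination -(κ ^ (Fintype.card B - T.card) * sn ρ *
      ∏ b : T, pb C (σ ∘ iT T) (b, false) (ρ (b, false)) (b, true) (ρ (b, true))) * this

/-- **Expansion** of the double alternating form at a multiple of the identity. -/
theorem Yf_expand (κ : ℝ) (C : B × Bool → B × Bool → B × Bool → B × Bool → ℝ) :
    Yf (fun a b c d => κ * (if a = b then 1 else 0) * (if c = d then 1 else 0) + C a b c d) =
      ∑ T : Finset B, κ ^ (Fintype.card B - T.card) *
        ∑ σ : Equiv.Perm (B × Bool), yf (pb C (σ ∘ iT T)) := by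
  have h1 : ∀ σ τ : Equiv.Perm (B × Bool), sn σ * sn τ *
      ∏ b : B, (κ * (if σ (b, false) = τ (b, false) then 1 else 0) *
          (if σ (b, true) = τ (b, true) then 1 else 0) +
          C (σ (b, false)) (τ (b, false)) (σ (b, true)) (τ (b, true))) =
      ∑ T : Finset B, sn σ * sn τ *
      ((∏ b ∈ T, C (σ (b, false)) (τ (b, false)) (σ (b, true)) (τ (b, true))) *
        ∏ b ∈ univ \ T, (κ * (if σ (b, false) = τ (b, false) then 1 else 0) *
          (if σ (b, true) = τ (b, true) then 1 else 0))) := by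
    intro σ τ
    rw [← Finset.mul_sum]
    congr 1
    simp only [add_comm (κ * _ * _)]
    rw [Finset.prod_add, Finset.powerset_univ]
  simp only [Yf, h1]
  simp only [Finset.mul_sum]
  rw [Finset.sum_congr rfl fun σ _ => Finset.sum_comm, Finset.sum_comm]
  refine Finset.sum_congr rfl fun T _ => ?_
  refine Finset.sum_congr rfl fun σ _ => ?_
  exact inner_T T κ C σ

end ext

section count

variable {P J : Type*} [Fintype P] [DecidableEq P] [Fintype J] [DecidableEq J]

omit [DecidableEq P] in
theorem exists_perm_extend (i j : P → J) (hi : Function.Injective i) (hj : Function.Injective j) :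
    ∃ θ : Equiv.Perm J, ∀ a, θ (j a) = i a := by
  classical
  let e : {x // x ∈ Set.range j} ≃ {x // x ∈ Set.range i} :=
    (Equiv.ofInjective j hj).symm.trans (Equiv.ofInjective i hi)
  refine ⟨e.extendSubtype, fun a => ?_⟩
  rw [Equiv.extendSubtype_apply_of_mem e (j a) ⟨a, rfl⟩]
  have : (⟨j a, ⟨a, rfl⟩⟩ : {x // x ∈ Set.range j}) = Equiv.ofInjective j hj a := rfl
  rw [this]
  simp [e]

/-- Summing over permutations or over all maps. -/
theorem sum_perm_eq (g : (P → J) → ℝ) (hg : ∀ i, ¬ Function.Injective i → g i = 0)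
    (j : P → J) (hj : Function.Injective j) :
    ((Fintype.card J).descFactorial (Fintype.card P) : ℝ) * ∑ σ : Equiv.Perm J, g (σ ∘ j) =
      (Fintype.card J).factorial * ∑ i : P → J, g i := by
  classical
  have h0 : ∀ f : (P → J) → ℝ, (∀ i, ¬ Function.Injective i → f i = 0) →
      ∑ i : P → J, f i = ∑ i : P ↪ J, f i := by
    intro f hf
    symm
    refine Fintype.sum_of_injective (fun i : P ↪ J => (i : P → J)) DFunLike.coe_injective _ _ ?_
      (fun i => rfl)
    intro i hi
    exact hf i fun h => hi ⟨⟨i, h⟩, rfl⟩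
  have h1 : ∑ i : P ↪ J, ∑ σ : Equiv.Perm J, g (σ ∘ i) =
      ((Fintype.card J).descFactorial (Fintype.card P) : ℝ) * ∑ σ : Equiv.Perm J, g (σ ∘ j) := by
    have : ∀ i : P ↪ J, ∑ σ : Equiv.Perm J, g (σ ∘ i) = ∑ σ : Equiv.Perm J, g (σ ∘ j) := by
      intro i
      obtain ⟨θ, hθ⟩ := exists_perm_extend i j i.injective hj
      rw [← Equiv.sum_comp (Equiv.mulRight θ) (fun σ : Equiv.Perm J => g (σ ∘ j))]
      refine Finset.sum_congr rfl fun σ _ => ?_
      congr 1
      ext a
      simp [hθ]
    rw [Finset.sum_congr rfl fun i _ => this i, Finset.sum_const, Finset.card_univ,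
      Fintype.card_embedding_eq, nsmul_eq_mul]
  have h2 : ∑ i : P ↪ J, ∑ σ : Equiv.Perm J, g (σ ∘ i) =
      (Fintype.card J).factorial * ∑ i : P → J, g i := by
    rw [Finset.sum_comm]
    have : ∀ σ : Equiv.Perm J, ∑ i : P ↪ J, g (σ ∘ i) = ∑ i : P → J, g i := by
      intro σ
      rw [← h0 (fun i => g (σ ∘ i)) (fun i hi => hg _ fun h => hi (h.of_comp))]
      exact Equiv.sum_comp (Equiv.arrowCongr (Equiv.refl P) σ) g
    rw [Finset.sum_congr rfl fun i _ => this i, Finset.sum_const, Finset.card_univ,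
      Fintype.card_perm, nsmul_eq_mul]
  rw [← h1, h2]

end count

section sym

variable {T : Type*} [Fintype T] [DecidableEq T] {J : Type*} [Fintype J] [DecidableEq J]

omit [Fintype J] [DecidableEq J] in
theorem yf_noninj (C : J → J → J → J → ℝ) (i : T × Bool → J) (hi : ¬ Function.Injective i) :
    yf (pb C i) = 0 := by
  simp only [Function.Injective, not_forall] at hi
  obtain ⟨a, a', haa, hne⟩ := hi
  have hs : ∀ x, i (Equiv.swap a a' x) = i x := by
    intro x
    rcases eq_or_ne x a with h | h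
    · rw [h, Equiv.swap_apply_left, haa]
    · rcases eq_or_ne x a' with h' | h'
      · rw [h', Equiv.swap_apply_right, haa]
      · rw [Equiv.swap_apply_of_ne_of_ne h h']
  have h1 : yf (pb C i) = -yf (pb C i) := by
    conv_lhs => rw [yf, ← Equiv.sum_comp (Equiv.mulLeft (Equiv.swap a a'))]
    rw [yf, ← Finset.sum_neg_distrib]
    refine Finset.sum_congr rfl fun ρ _ => ?_
    simp only [Equiv.coe_mulLeft, sn_mul, Equiv.Perm.mul_apply, pb, hs]
    have : sn (Equiv.swap a a') = -1 := by
      simp [sn, Equiv.Perm.sign_swap hne]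
    rw [this]; ring
  linarith

theorem Yf_eq_sum_yf (C : T × Bool → T × Bool → T × Bool → T × Bool → ℝ) :
    Yf C = ∑ π : Equiv.Perm (T × Bool), yf (pb C π) := by
  rw [Yf]
  refine Finset.sum_congr rfl fun π _ => ?_
  rw [← Equiv.sum_comp (Equiv.mulLeft π), yf]
  refine Finset.sum_congr rfl fun ρ _ => ?_
  simp only [Equiv.coe_mulLeft, sn_mul, Equiv.Perm.mul_apply, pb]
  have := sn_mul_self π
  linear_combination (sn ρ * ∏ b : T, C (π (b, false)) (π (ρ (b, false))) (π (b, true))
    (π (ρ (b, true)))) * this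

omit [DecidableEq J] in
theorem sum_Yf (C : J → J → J → J → ℝ) :
    ∑ i : T × Bool → J, Yf (pb C i) =
      (Fintype.card (T × Bool)).factorial * ∑ i : T × Bool → J, yf (pb C i) := by
  simp only [Yf_eq_sum_yf]
  rw [Finset.sum_comm]
  have : ∀ π : Equiv.Perm (T × Bool), ∑ i : T × Bool → J, yf (pb (pb C i) π) =
      ∑ i : T × Bool → J, yf (pb C i) := by
    intro π
    exact Equiv.sum_comp (Equiv.arrowCongr π.symm (Equiv.refl J)) (fun i => yf (pb C i))
  rw [Finset.sum_congr rfl fun π _ => this π, Finset.sum_const, Finset.card_univ,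
    Fintype.card_perm, nsmul_eq_mul]

end sym

end Pool.Agent.W666.GB
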