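import Pool.Agent.W666.GB.MD

/-!
# Bound for the double alternating form
-/

set_option autoImplicit false

namespace Pool.Agent.W666.GB

open Finset

theorem det_bound_real {P : Type*} [Fintype P] [DecidableEq P] (A : Matrix P P ℝ) :
    A.det ^ 2 ≤ ((∑ i, ∑ j, A i j ^ 2) / Fintype.card P) ^ Fintype.card P := by
  have h := det_bound (Complex.ofRealHom.mapMatrix A)
  rw [← RingHom.map_det] at h
  simpa using h

section expm

variable {T : Type*} [Fintype T] [DecidableEq T]

theorem exp_moment (c : T → ℝ) (A : Finset T) : ∀ u : ℝ, 0 ≤ u → 4 * u * ∑ b ∈ A, c b ^ 2 ≤ 1 →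
    av (fun v : T → Bool => Real.exp (u * (∑ b ∈ A, sg (v b) * c b) ^ 2)) ≤
      Real.exp (2 * u * ∑ b ∈ A, c b ^ 2) := by
  induction A using Finset.induction_on with
  | empty => intro u hu h; simp [av_const]
  | insert b₀ A hb ih =>
    intro u hu h
    rw [Finset.sum_insert hb] at h ⊢
    set V := ∑ b ∈ A, c b ^ 2 with hV
    have hV0 : 0 ≤ V := Finset.sum_nonneg fun _ _ => sq_nonneg _
    have hc0 : 0 ≤ c b₀ ^ 2 := sq_nonneg _
    have huc : 0 ≤ u * c b₀ ^ 2 := by positivity
    have huV : 4 * u * V ≤ 1 := by nlinarith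
    set u' := u * (1 + 2 * u * c b₀ ^ 2) with hu'
    have hu'0 : 0 ≤ u' := by positivity
    have h1 : 4 * u' * V ≤ 1 := by
      rw [hu']
      have : (2 * u * c b₀ ^ 2) * (4 * u * V) ≤ (2 * u * c b₀ ^ 2) * 1 :=
        mul_le_mul_of_nonneg_left huV (by positivity)
      nlinarith
    have h2 := ih u' hu'0 h1
    rw [av_resample b₀]
    have h3 : ∀ v : T → Bool, av (fun x : Bool => Real.exp (u *
        (∑ b ∈ insert b₀ A, sg (Function.update v b₀ x b) * c b) ^ 2)) ≤
        Real.exp (u * c b₀ ^ 2) * Real.exp (u' * (∑ b ∈ A, sg (v b) * c b) ^ 2) := by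
      intro v
      set y := ∑ b ∈ A, sg (v b) * c b with hy
      have h4 : ∀ x : Bool, ∑ b ∈ insert b₀ A, sg (Function.update v b₀ x b) * c b =
          sg x * c b₀ + y := by
        intro x
        rw [Finset.sum_insert hb, Function.update_self, hy]
        congr 1
        exact Finset.sum_congr rfl fun b hbA => by
          rw [Function.update_of_ne (by rintro rfl; exact hb hbA)]
      simp only [h4, av_bool, sg_true, sg_false]
      have h5 : (Real.exp (u * (1 * c b₀ + y) ^ 2) + Real.exp (u * (-1 * c b₀ + y) ^ 2)) / 2 =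
          Real.exp (u * (c b₀ ^ 2 + y ^ 2)) * Real.cosh (2 * u * c b₀ * y) := by
        rw [Real.cosh_eq, mul_div_assoc', mul_add, ← Real.exp_add, ← Real.exp_add]
        ring_nf
      rw [h5]
      have h6 : Real.cosh (2 * u * c b₀ * y) ≤ Real.exp ((2 * u * c b₀ * y) ^ 2 / 2) :=
        Real.cosh_le_exp_half_sq _
      calc Real.exp (u * (c b₀ ^ 2 + y ^ 2)) * Real.cosh (2 * u * c b₀ * y)
          ≤ Real.exp (u * (c b₀ ^ 2 + y ^ 2)) * Real.exp ((2 * u * c b₀ * y) ^ 2 / 2) :=
            mul_le_mul_of_nonneg_left h6 (Real.exp_pos _).le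
        _ = Real.exp (u * c b₀ ^ 2) * Real.exp (u' * y ^ 2) := by
            rw [← Real.exp_add, ← Real.exp_add, hu']
            ring_nf
    refine (av_mono h3).trans ?_
    rw [av_mul_left]
    refine (mul_le_mul_of_nonneg_left h2 (Real.exp_pos _).le).trans ?_
    rw [← Real.exp_add]
    refine Real.exp_le_exp.mpr ?_
    rw [hu']
    have : (u * c b₀ ^ 2) * (4 * u * V) ≤ (u * c b₀ ^ 2) * 1 :=
      mul_le_mul_of_nonneg_left huV huc
    nlinarith

end expm

section bound

variable {T D : Type*} [Fintype T] [DecidableEq T] [Fintype D] [DecidableEq D]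

omit [DecidableEq T] in
theorem norm_comb (S : D → T × Bool → T × Bool → ℝ)
    (horth : ∀ e e', ∑ a, ∑ b, S e a b * S e' a b = if e = e' then 1 else 0) (η : D → ℝ) :
    ∑ i, ∑ j, (∑ e, η e * S e i j) ^ 2 = ∑ e, η e ^ 2 := by
  have h1 : ∀ i j, (∑ e, η e * S e i j) ^ 2 =
      ∑ e, ∑ e', (η e * η e') * (S e i j * S e' i j) := by
    intro i j
    rw [pow_two, Finset.sum_mul_sum]
    exact Finset.sum_congr rfl fun e _ => Finset.sum_congr rfl fun e' _ => by ring
  have h2 : ∑ i, ∑ j, (∑ e, η e * S e i j) ^ 2 =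
      ∑ e, ∑ e', (η e * η e') * ∑ i, ∑ j, (S e i j * S e' i j) := by
    simp only [h1, Finset.mul_sum]
    rw [Finset.sum_congr rfl fun i _ => Finset.sum_comm]
    rw [Finset.sum_comm]
    refine Finset.sum_congr rfl fun e _ => ?_
    rw [Finset.sum_congr rfl fun i _ => Finset.sum_comm]
    rw [Finset.sum_comm]
  rw [h2]
  simp only [horth]
  simp [pow_two]

theorem inner_bound (hk : 0 < Fintype.card T) (α β : D → ℝ) (m : D → ℝ)
    (hα : ∀ e, α e ^ 2 = m e) (hβ : ∀ e, β e ^ 2 = m e) (w : ℝ) (hw : 0 < w)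
    (h1 : ∀ e, m e ≤ w) (h2 : ∑ e, m e ≤ 2 * Fintype.card T * w) (s : T × Bool → Bool) :
    av (fun ε : T → D → Bool => ((∑ e, (∑ b, sg (ε b e) *
      (sg (s (b, false)) * α e + sg (s (b, true)) * β e)) ^ 2) / (2 * Fintype.card T)) ^
        Fintype.card T) ≤ (Fintype.card T).factorial * (8 * Real.exp 1 * w) ^ Fintype.card T := by
  set k := Fintype.card T with hkdef
  have hk' : (0 : ℝ) < k := by exact_mod_cast hk
  set u : ℝ := 1 / (16 * k * w) with hu
  have hu0 : 0 < u := by positivity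
  set cc : D → T → ℝ := fun e b => sg (s (b, false)) * α e + sg (s (b, true)) * β e with hcc
  have hm0 : ∀ e, 0 ≤ m e := fun e => by rw [← hα]; positivity
  have hcsq : ∀ e, ∑ b, cc e b ^ 2 ≤ 4 * k * m e := by
    intro e
    have : ∀ b, cc e b ^ 2 ≤ 4 * m e := by
      intro b
      have e1 : cc e b ^ 2 ≤ 2 * ((sg (s (b, false)) * α e) ^ 2 + (sg (s (b, true)) * β e) ^ 2) := by
        rw [hcc]
        nlinarith [sq_nonneg (sg (s (b, false)) * α e - sg (s (b, true)) * β e)]
      rw [mul_pow, mul_pow, sg_sq, sg_sq, hα, hβ] at e1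
      linarith
    calc ∑ b, cc e b ^ 2 ≤ ∑ _b : T, 4 * m e := Finset.sum_le_sum fun b _ => this b
      _ = 4 * k * m e := by
        rw [Finset.sum_const, Finset.card_univ, nsmul_eq_mul, ← hkdef]; ring
  have hexp : av (fun ε : T → D → Bool => Real.exp (u * ∑ e, (∑ b, sg (ε b e) * cc e b) ^ 2)) ≤
      Real.exp k := by
    have h3 := av_equiv (Equiv.piComm (fun (_ : D) (_ : T) => Bool))
      (fun ε : T → D → Bool => Real.exp (u * ∑ e, (∑ b, sg (ε b e) * cc e b) ^ 2))
    rw [← h3]
    have h4 : ∀ ε : D → T → Bool, Real.exp (u * ∑ e, (∑ b, sg ((Equiv.piComm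
        (fun (_ : D) (_ : T) => Bool)) ε b e) * cc e b) ^ 2) =
        ∏ e, Real.exp (u * (∑ b, sg (ε e b) * cc e b) ^ 2) := by
      intro ε
      rw [← Real.exp_sum, Finset.mul_sum]
      rfl
    simp only [h4]
    rw [av_prod_pi (ι := D) (Ω := T → Bool)
      (fun e v => Real.exp (u * (∑ b, sg (v b) * cc e b) ^ 2))]
    have h5 : ∀ e, av (fun v : T → Bool => Real.exp (u * (∑ b, sg (v b) * cc e b) ^ 2)) ≤
        Real.exp (m e / (2 * w)) := by
      intro e
      have h6 := exp_moment (cc e) Finset.univ u hu0.le (by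
        calc 4 * u * ∑ b, cc e b ^ 2 ≤ 4 * u * (4 * k * m e) :=
              mul_le_mul_of_nonneg_left (hcsq e) (by positivity)
          _ ≤ 4 * u * (4 * k * w) := by
              refine mul_le_mul_of_nonneg_left ?_ (by positivity)
              exact mul_le_mul_of_nonneg_left (h1 e) (by positivity)
          _ = 1 := by rw [hu]; field_simp; norm_num)
      refine h6.trans (Real.exp_le_exp.mpr ?_)
      calc 2 * u * ∑ b, cc e b ^ 2 ≤ 2 * u * (4 * k * m e) :=
            mul_le_mul_of_nonneg_left (hcsq e) (by positivity)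
        _ = m e / (2 * w) := by rw [hu]; field_simp; norm_num
    calc ∏ e, av (fun v : T → Bool => Real.exp (u * (∑ b, sg (v b) * cc e b) ^ 2))
        ≤ ∏ e, Real.exp (m e / (2 * w)) :=
          Finset.prod_le_prod (fun e _ => av_nonneg fun v => (Real.exp_pos _).le) fun e _ => h5 e
      _ = Real.exp ((∑ e, m e) / (2 * w)) := by rw [← Real.exp_sum, Finset.sum_div]
      _ ≤ Real.exp k := by
        refine Real.exp_le_exp.mpr ?_
        rw [div_le_iff₀ (by positivity)]
        calc ∑ e, m e ≤ 2 * k * w := h2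
          _ = k * (2 * w) := by ring
  have hpt : ∀ ε : T → D → Bool, ((∑ e, (∑ b, sg (ε b e) * cc e b) ^ 2) / (2 * k)) ^ k ≤
      (k.factorial * (8 * w) ^ k) * Real.exp (u * ∑ e, (∑ b, sg (ε b e) * cc e b) ^ 2) := by
    intro ε
    set Q := ∑ e, (∑ b, sg (ε b e) * cc e b) ^ 2 with hQ
    have hQ0 : 0 ≤ Q := Finset.sum_nonneg fun _ _ => sq_nonneg _
    have h7 := Real.pow_div_factorial_le_exp (u * Q) (by positivity) k
    rw [div_le_iff₀ (by positivity)] at h7
    have h8 : (Q / (2 * k)) ^ k = (8 * w) ^ k * (u * Q) ^ k := by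
      rw [← mul_pow]
      congr 1
      rw [hu]; field_simp; ring
    rw [h8]
    calc (8 * w) ^ k * (u * Q) ^ k ≤ (8 * w) ^ k * (Real.exp (u * Q) * k.factorial) :=
          mul_le_mul_of_nonneg_left h7 (by positivity)
      _ = _ := by ring
  refine (av_mono hpt).trans ?_
  rw [av_mul_left]
  refine (mul_le_mul_of_nonneg_left hexp (by positivity)).trans (le_of_eq ?_)
  rw [show (8 * Real.exp 1 * w) = (8 * w) * Real.exp 1 by ring, mul_pow (8 * w), ← Real.exp_nat_mul]
  ring_nf

theorem Yf_bound_spec (hk : 0 < Fintype.card T) (μ : D → ℝ) (S : D → T × Bool → T × Bool → ℝ)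
    (horth : ∀ e e', ∑ a, ∑ b, S e a b * S e' a b = if e = e' then 1 else 0)
    (C : T × Bool → T × Bool → T × Bool → T × Bool → ℝ)
    (hC : ∀ a b c d, C a b c d = ∑ e, μ e * (S e a b * S e c d)) (w : ℝ) (hw : 0 < w)
    (h1 : ∀ e, |μ e| ≤ w) (h2 : ∑ e, |μ e| ≤ 2 * Fintype.card T * w) :
    |Yf C| ≤ (Fintype.card T).factorial * (8 * Real.exp 1 * w) ^ Fintype.card T := by
  set α : D → ℝ := fun e => Real.sqrt |μ e| with hα
  set β : D → ℝ := fun e => (if 0 ≤ μ e then 1 else -1) * Real.sqrt |μ e| with hβ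
  have hα2 : ∀ e, α e ^ 2 = |μ e| := fun e => Real.sq_sqrt (abs_nonneg _)
  have hβ2 : ∀ e, β e ^ 2 = |μ e| := by
    intro e
    rw [hβ]; simp only
    rw [mul_pow, Real.sq_sqrt (abs_nonneg _)]
    split_ifs <;> norm_num
  have hαβ : ∀ e, α e * β e = μ e := by
    intro e
    rw [hα, hβ]; simp only
    have := Real.mul_self_sqrt (abs_nonneg (μ e))
    split_ifs with h
    · rw [abs_of_nonneg h] at this ⊢; linarith
    · rw [abs_of_neg (not_le.mp h)] at this ⊢; linarith
  rw [Yf_eq α β S C (fun a b c d => by simp only [hαβ]; exact hC a b c d)]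
  have h3 : ∀ ε : T → D → Bool, |MD (XX α β S ε)| ≤ av (fun s : T × Bool → Bool =>
      ((∑ e, (∑ b, sg (ε b e) * (sg (s (b, false)) * α e + sg (s (b, true)) * β e)) ^ 2) /
        (2 * Fintype.card T)) ^ Fintype.card T) := by
    intro ε
    rw [MD_eq]
    refine (abs_av_le _).trans (av_mono fun s => ?_)
    rw [abs_mul, Finset.abs_prod]
    have h4 : ∀ a, |sg (s a)| = 1 := fun a => by cases s a <;> simp
    simp only [h4, Finset.prod_const_one, one_mul]
    have h5 : ∀ i j, ∑ a, sg (s a) * XX α β S ε a i j =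
        ∑ e, (∑ b, sg (ε b e) * (sg (s (b, false)) * α e + sg (s (b, true)) * β e)) * S e i j := by
      intro i j
      rw [Fintype.sum_prod_type]
      simp only [Fintype.sum_bool, XX, Finset.mul_sum, Finset.sum_mul]
      rw [Finset.sum_comm]
      refine Finset.sum_congr rfl fun b _ => ?_
      rw [← Finset.sum_add_distrib]
      refine Finset.sum_congr rfl fun e _ => ?_
      simp
      ring
    have h6 := det_bound_real (Matrix.of fun i j => ∑ a, sg (s a) * XX α β S ε a i j)
    simp only [Matrix.of_apply, h5, norm_comb S horth, Fintype.card_prod, Fintype.card_bool] at h6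
    simp only [h5]
    refine abs_le_of_sq_le_sq (h6.trans (le_of_eq ?_)) (by positivity)
    rw [← pow_mul]; push_cast; rw [mul_comm (Fintype.card T : ℝ) 2]
  refine (abs_av_le _).trans ((av_mono h3).trans ?_)
  rw [av_comm]
  exact av_le_const fun s => inner_bound hk α β (fun e => |μ e|) hα2 hβ2 w hw h1 h2 s

omit [DecidableEq D] in
theorem Yf_zero (hk : 0 < Fintype.card T) (C : T × Bool → T × Bool → T × Bool → T × Bool → ℝ)
    (hC : ∀ a b c d, C a b c d = 0) : Yf C = 0 := by
  have : Nonempty T := Fintype.card_pos_iff.mp hk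
  simp only [Yf, hC, Finset.prod_const, Finset.card_univ]
  rw [zero_pow hk.ne']
  simp

/-- Bound for the double alternating form in terms of the Hilbert–Schmidt norm. -/
theorem Yf_bound (hk : 0 < Fintype.card T) (C : T × Bool → T × Bool → T × Bool → T × Bool → ℝ)
    (hsym : ∀ a b c d, C a b c d = C c d a b) :
    Yf C ^ 2 ≤ ((Fintype.card T).factorial * (8 * Real.exp 1) ^ Fintype.card T) ^ 2 *
      (∑ a, ∑ b, ∑ c, ∑ d, C a b c d ^ 2) ^ Fintype.card T := by
  set N := ∑ a, ∑ b, ∑ c, ∑ d, C a b c d ^ 2 with hN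
  have hN0 : 0 ≤ N := Finset.sum_nonneg fun _ _ => Finset.sum_nonneg fun _ _ =>
    Finset.sum_nonneg fun _ _ => Finset.sum_nonneg fun _ _ => sq_nonneg _
  rcases hN0.eq_or_lt with h0 | hNpos
  · have hz : ∀ a b c d, C a b c d = 0 := by
      intro a b c d
      have h1 := (Finset.sum_eq_zero_iff_of_nonneg (fun a _ => Finset.sum_nonneg fun _ _ =>
        Finset.sum_nonneg fun _ _ => Finset.sum_nonneg fun _ _ => sq_nonneg _)).mp
        (hN ▸ h0.symm) a (Finset.mem_univ _)
      have h2 := (Finset.sum_eq_zero_iff_of_nonneg (fun b _ =>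
        Finset.sum_nonneg fun _ _ => Finset.sum_nonneg fun _ _ => sq_nonneg _)).mp
        h1 b (Finset.mem_univ _)
      have h3 := (Finset.sum_eq_zero_iff_of_nonneg (fun c _ =>
        Finset.sum_nonneg fun _ _ => sq_nonneg _)).mp h2 c (Finset.mem_univ _)
      have h4 := (Finset.sum_eq_zero_iff_of_nonneg (fun d _ => sq_nonneg _)).mp
        h3 d (Finset.mem_univ _)
      exact pow_eq_zero_iff two_ne_zero |>.mp h4
    rw [Yf_zero hk C hz, zero_pow two_ne_zero]
    exact mul_nonneg (sq_nonneg _) (pow_nonneg hN0 _)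
  set A : Matrix ((T × Bool) × (T × Bool)) ((T × Bool) × (T × Bool)) ℝ :=
    Matrix.of fun p q => C p.1 p.2 q.1 q.2 with hA
  have hH : A.IsHermitian := by
    ext p q
    simp [hA, hsym p.1 p.2 q.1 q.2]
  set U : Matrix ((T × Bool) × (T × Bool)) ((T × Bool) × (T × Bool)) ℝ :=
    hH.eigenvectorUnitary.1 with hU
  set μ := hH.eigenvalues with hμ
  have hspec : ∀ p q, A p q = ∑ e, μ e * (U p e * U q e) := by
    intro p q
    have h1 := hH.spectral_theorem
    rw [Unitary.conjStarAlgAut_apply] at h1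
    have h2 := congrFun (congrFun h1 p) q
    rw [h2, Matrix.mul_apply]
    refine Finset.sum_congr rfl fun e _ => ?_
    rw [Matrix.mul_diagonal]
    simp [Matrix.star_apply, hU, hμ]
    ring
  have hunit : ∀ e e', ∑ p, U p e * U p e' = if e = e' then 1 else 0 := by
    intro e e'
    have h1 : star U * U = 1 := Unitary.coe_star_mul_self hH.eigenvectorUnitary
    have h2 := congrFun (congrFun h1 e) e'
    rw [Matrix.mul_apply, Matrix.one_apply] at h2
    simpa [Matrix.star_apply] using h2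
  set S : ((T × Bool) × (T × Bool)) → T × Bool → T × Bool → ℝ := fun e a b => U (a, b) e with hS
  have horth : ∀ e e', ∑ a, ∑ b, S e a b * S e' a b = if e = e' then 1 else 0 := by
    intro e e'
    rw [← hunit e e', Fintype.sum_prod_type (f := fun p => U p e * U p e')]
  have hC : ∀ a b c d, C a b c d = ∑ e, μ e * (S e a b * S e c d) := fun a b c d =>
    hspec (a, b) (c, d)
  have hμN : ∑ e, μ e ^ 2 = N := by
    rw [hN]
    have h1 : ∀ a b, ∑ c, ∑ d, C a b c d ^ 2 = ∑ e, (μ e * S e a b) ^ 2 := by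
      intro a b
      rw [← norm_comb S horth]
      refine Finset.sum_congr rfl fun c _ => Finset.sum_congr rfl fun d _ => ?_
      rw [hC]
      congr 1
      exact Finset.sum_congr rfl fun e _ => by ring
    simp only [h1]
    rw [Finset.sum_congr rfl fun a _ => Finset.sum_comm, Finset.sum_comm]
    refine Finset.sum_congr rfl fun e _ => ?_
    have h2 := horth e e
    rw [if_pos rfl] at h2
    calc μ e ^ 2 = μ e ^ 2 * ∑ a, ∑ b, S e a b * S e a b := by rw [h2, mul_one]
      _ = _ := by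
        rw [Finset.mul_sum]
        refine Finset.sum_congr rfl fun a _ => ?_
        rw [Finset.mul_sum]
        exact Finset.sum_congr rfl fun b _ => by ring
  have hw : 0 < Real.sqrt N := Real.sqrt_pos.mpr hNpos
  have hwN : Real.sqrt N ^ 2 = N := Real.sq_sqrt hN0
  have hb := Yf_bound_spec hk μ S horth C hC (Real.sqrt N) hw
    (fun e => by
      refine abs_le_of_sq_le_sq ?_ hw.le
      rw [hwN, ← hμN]
      exact Finset.single_le_sum (f := fun e => μ e ^ 2) (fun _ _ => sq_nonneg _)
        (Finset.mem_univ e))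
    (by
      have h1 := sq_sum_le_card_mul_sum_sq
        (s := (Finset.univ : Finset ((T × Bool) × (T × Bool)))) (f := fun e => |μ e|)
      simp only [sq_abs, hμN, Finset.card_univ, Fintype.card_prod, Fintype.card_bool] at h1
      refine (le_abs_self _).trans (abs_le_of_sq_le_sq ?_
        (mul_nonneg (mul_nonneg two_pos.le (Nat.cast_nonneg _)) hw.le))
      refine h1.trans (le_of_eq ?_)
      rw [mul_pow, hwN]
      push_cast
      ring)
  have h3 := pow_le_pow_left₀ (abs_nonneg _) hb 2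
  rw [sq_abs] at h3
  refine h3.trans (le_of_eq ?_)
  rw [mul_pow (8 * Real.exp 1), ← mul_assoc, mul_pow _ (Real.sqrt N ^ _), ← pow_mul (Real.sqrt N),
    mul_comm _ 2, pow_mul (Real.sqrt N), hwN]

end bound

end Pool.Agent.W666.GB
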