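import Pool.Agent.W666.GB.Rad
import Pool.Agent.W666.GB.YBound

/-!
# Assembly of the estimates
-/

set_option autoImplicit false

namespace Pool.Agent.W666.GB

open Finset

section lift

variable {J : Type*} [Fintype J] [DecidableEq J] {E : J → J → J → J → ℝ}

/-- the symmetric lift of a curvature tensor -/
noncomputable def Cl (E : J → J → J → J → ℝ) (a b c d : J) : ℝ := (E a c b d + E a d b c) / 3

omit [DecidableEq J] in
theorem ev_Cl (w1 w2 w3 w4 : J → ℝ) :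
    ev (Cl E) w1 w2 w3 w4 = (ev E w1 w3 w2 w4 + ev E w1 w4 w2 w3) / 3 := by
  have e1 : ev E w1 w3 w2 w4 = ∑ i, ∑ j, ∑ k, ∑ l, w1 i * w2 j * w3 k * w4 l * E i k j l := by
    rw [ev_eq]
    refine Finset.sum_congr rfl fun i _ => ?_
    rw [Finset.sum_comm]
    refine Finset.sum_congr rfl fun j _ => Finset.sum_congr rfl fun k _ =>
      Finset.sum_congr rfl fun l _ => by ring
  have e2 : ev E w1 w4 w2 w3 = ∑ i, ∑ j, ∑ k, ∑ l, w1 i * w2 j * w3 k * w4 l * E i l j k := by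
    rw [ev_eq]
    refine Finset.sum_congr rfl fun i _ => ?_
    rw [Finset.sum_comm]
    refine Finset.sum_congr rfl fun j _ => ?_
    rw [Finset.sum_comm]
    refine Finset.sum_congr rfl fun k _ => Finset.sum_congr rfl fun l _ => by ring
  rw [e1, e2, ev_eq, ← Finset.sum_add_distrib, Finset.sum_div]
  refine Finset.sum_congr rfl fun i _ => ?_
  rw [← Finset.sum_add_distrib, Finset.sum_div]
  refine Finset.sum_congr rfl fun j _ => ?_
  rw [← Finset.sum_add_distrib, Finset.sum_div]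
  refine Finset.sum_congr rfl fun k _ => ?_
  rw [← Finset.sum_add_distrib, Finset.sum_div]
  refine Finset.sum_congr rfl fun l _ => ?_
  simp only [Cl]; ring

omit [DecidableEq J] in
theorem ev_Cl_symm (hE : Sym4 E) (w1 w2 w3 w4 : J → ℝ) :
    ev (Cl E) w1 w2 w3 w4 = ev (Cl E) w3 w4 w1 w2 := by
  rw [ev_Cl, ev_Cl, ev_a12 hE w3 w1, ev_a34 hE w1 w3 w4 w2, neg_neg, ev_pair hE w1 w4 w2 w3,
    ev_a12 hE w2 w3, ev_a34 hE w3 w2]
  ring

variable {P : Type*} [Fintype P]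

omit [DecidableEq J] in
theorem nrm_Cl (x : P → J → ℝ) : nrm (Cl E) x ≤ 4 / 9 * nrm E x := by
  have h1 : ∀ a b c d : P, ev (Cl E) (x a) (x b) (x c) (x d) ^ 2 ≤
      2 / 9 * ev E (x a) (x c) (x b) (x d) ^ 2 + 2 / 9 * ev E (x a) (x d) (x b) (x c) ^ 2 := by
    intro a b c d
    rw [ev_Cl]
    nlinarith [sq_nonneg (ev E (x a) (x c) (x b) (x d) - ev E (x a) (x d) (x b) (x c))]
  have e1 : ∑ a, ∑ b, ∑ c, ∑ d, ev E (x a) (x c) (x b) (x d) ^ 2 = nrm E x := by
    unfold nrm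
    exact Finset.sum_congr rfl fun a _ => Finset.sum_comm
  have e2 : ∑ a, ∑ b, ∑ c, ∑ d, ev E (x a) (x d) (x b) (x c) ^ 2 = nrm E x := by
    unfold nrm
    refine Finset.sum_congr rfl fun a _ => ?_
    rw [Finset.sum_congr rfl fun b _ => Finset.sum_comm, Finset.sum_comm]
  have h2 : nrm (Cl E) x ≤ ∑ a, ∑ b, ∑ c, ∑ d,
      (2 / 9 * ev E (x a) (x c) (x b) (x d) ^ 2 + 2 / 9 * ev E (x a) (x d) (x b) (x c) ^ 2) :=
    Finset.sum_le_sum fun a _ => Finset.sum_le_sum fun b _ => Finset.sum_le_sum fun c _ =>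
      Finset.sum_le_sum fun d _ => h1 a b c d
  simp only [Finset.sum_add_distrib, ← Finset.mul_sum] at h2
  rw [e1, e2] at h2
  linarith

end lift

section mainbound

theorem pow_identity (F e K a : ℝ) (k : ℕ) :
    (F * (8 * e) ^ k) ^ 2 * (4 / 9) ^ k * ((5 / 2) ^ (2 * k) * ((1620 * K * a) ^ 2) ^ k) =
      (F * (21600 * e * K * a) ^ k) ^ 2 := by
  have eX : (21600 * e * K * a) ^ k = (8 * e) ^ k * (2 / 3) ^ k * (5 / 2) ^ k *
      (1620 * K * a) ^ k := by
    rw [← mul_pow, ← mul_pow, ← mul_pow]; congr 1; ring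
  have e49 : (4 / 9 : ℝ) ^ k = ((2 / 3) ^ k) ^ 2 := by
    rw [← pow_mul, mul_comm, pow_mul]; norm_num
  have e52 : (5 / 2 : ℝ) ^ (2 * k) = ((5 / 2) ^ k) ^ 2 := by rw [← pow_mul, mul_comm]
  have e4 : ((1620 * K * a) ^ 2) ^ k = ((1620 * K * a) ^ k) ^ 2 := by
    rw [← pow_mul, ← pow_mul, mul_comm k 2]
  rw [eX, e49, e52, e4]; ring

variable {T : Type*} [Fintype T] [DecidableEq T] {J : Type*} [Fintype J] [DecidableEq J]
  {E : J → J → J → J → ℝ}

/-- Bound for the sum over all index maps. -/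
theorem sum_Yf_bound (hk : 0 < Fintype.card T) (hE : Sym4 E) (hscal : ∑ i, ricc E i i = 0)
    {a : ℝ} (ha : 0 ≤ a) (h4 : ∑ i, ∑ j, ∑ p, ∑ l, E i j p l ^ 2 ≤ a ^ 2)
    (h2 : ∑ i, ∑ j, ricc E i j ^ 2 ≤ a ^ 2) :
    |∑ i : T × Bool → J, Yf (pb (Cl E) i)| ≤
      (Fintype.card T).factorial * (21600 * Real.exp 1 * (Fintype.card T : ℝ) ^ 2 * a) ^
        Fintype.card T := by
  have key : ∀ k : ℕ, 0 < k → Fintype.card T = k →
      (∑ i : T × Bool → J, Yf (pb (Cl E) i)) ^ 2 ≤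
        (k.factorial * (21600 * Real.exp 1 * (k : ℝ) ^ 2 * a) ^ k) ^ 2 := by
    intro k hk0 hkT
    have hk1 : (1 : ℝ) ≤ k := by exact_mod_cast hk0
    rw [← av_Yf]
    refine (av_sq_le _).trans ?_
    have h5 : ∀ ω : T × Bool → J → Bool,
        Yf (fun a b c d => ev (Cl E) (sv (ω a)) (sv (ω b)) (sv (ω c)) (sv (ω d))) ^ 2 ≤
        (k.factorial * (8 * Real.exp 1) ^ k) ^ 2 * (4 / 9) ^ k *
          nrm E (fun a => sv (ω a)) ^ k := by
      intro ω
      have h6 := Yf_bound hk (fun a b c d => ev (Cl E) (sv (ω a)) (sv (ω b)) (sv (ω c)) (sv (ω d)))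
        (fun a b c d => ev_Cl_symm hE _ _ _ _)
      rw [hkT] at h6
      refine h6.trans ?_
      rw [mul_assoc, ← mul_pow (4 / 9 : ℝ)]
      refine mul_le_mul_of_nonneg_left ?_ (by positivity)
      exact pow_le_pow_left₀ (nrm_nonneg (E := Cl E) _) (nrm_Cl _) k
    refine (av_mono h5).trans ?_
    rw [av_mul_left]
    have h7 := nrm_moment (P := T × Bool) hE hscal k hk0
    have hcard : Fintype.card (T × Bool) = 2 * k := by
      rw [Fintype.card_prod, Fintype.card_bool, hkT]; ring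
    rw [hcard] at h7
    have h8 : ((40 * k : ℝ) ^ 4 * ∑ i, ∑ j, ∑ p, ∑ l, E i j p l ^ 2 +
        (40 * k) ^ 3 * ∑ i, ∑ j, ricc E i j ^ 2) ≤ (1620 * (k : ℝ) ^ 2 * a) ^ 2 := by
      have e1 := mul_le_mul_of_nonneg_left h4 (by positivity : (0 : ℝ) ≤ (40 * k : ℝ) ^ 4)
      have e2 := mul_le_mul_of_nonneg_left h2 (by positivity : (0 : ℝ) ≤ (40 * k : ℝ) ^ 3)
      have e3 : (k : ℝ) ^ 3 * a ^ 2 ≤ (k : ℝ) ^ 4 * a ^ 2 := by
        refine mul_le_mul_of_nonneg_right ?_ (sq_nonneg a)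
        exact pow_le_pow_right₀ hk1 (by norm_num)
      have e4 : 0 ≤ (k : ℝ) ^ 4 * a ^ 2 := by positivity
      nlinarith
    have h9 : 0 ≤ ((40 * k : ℝ) ^ 4 * ∑ i, ∑ j, ∑ p, ∑ l, E i j p l ^ 2 +
        (40 * k) ^ 3 * ∑ i, ∑ j, ricc E i j ^ 2) := by
      refine add_nonneg (mul_nonneg (by positivity) ?_) (mul_nonneg (by positivity) ?_)
      · exact Finset.sum_nonneg fun _ _ => Finset.sum_nonneg fun _ _ =>
          Finset.sum_nonneg fun _ _ => Finset.sum_nonneg fun _ _ => sq_nonneg _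
      · exact Finset.sum_nonneg fun _ _ => Finset.sum_nonneg fun _ _ => sq_nonneg _
    have h10 := h7.trans (mul_le_mul_of_nonneg_left (pow_le_pow_left₀ h9 h8 k)
      (by positivity : (0 : ℝ) ≤ (5 / 2) ^ (2 * k)))
    refine (mul_le_mul_of_nonneg_left h10 (by positivity)).trans (le_of_eq ?_)
    exact pow_identity _ _ _ _ _
  have h3 := key _ hk rfl
  exact abs_le_of_sq_le_sq h3 (by positivity)

end mainbound

section numbers

theorem nat_pow_le (n p : ℕ) (hp : p ≤ n) : n ^ p * p.factorial ≤ n.descFactorial p * p ^ p := by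
  rw [← Nat.descFactorial_self p, Nat.descFactorial_eq_prod_range, Nat.descFactorial_eq_prod_range]
  have h1 : ∀ x : ℕ, x ^ p = ∏ _i ∈ Finset.range p, x := fun x => by simp
  rw [h1 n, h1 p, ← Finset.prod_mul_distrib, ← Finset.prod_mul_distrib]
  refine Finset.prod_le_prod' fun j hj => ?_
  have hj' : j < p := Finset.mem_range.mp hj
  obtain ⟨u, rfl⟩ := Nat.exists_eq_add_of_lt hj'
  obtain ⟨v, rfl⟩ := Nat.exists_eq_add_of_le hp
  have e1 : j + u + 1 - j = u + 1 := by omega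
  have e2 : j + u + 1 + v - j = u + 1 + v := by omega
  rw [e1, e2]
  nlinarith [Nat.zero_le (j * v)]

theorem pow_le_exp_desc (n p : ℕ) (hp : p ≤ n) :
    (n : ℝ) ^ p ≤ Real.exp 1 ^ p * (n.descFactorial p : ℝ) := by
  have h1 : ((n : ℝ) ^ p * p.factorial) ≤ (n.descFactorial p : ℝ) * (p : ℝ) ^ p := by
    exact_mod_cast nat_pow_le n p hp
  have h2 := Real.pow_div_factorial_le_exp (p : ℝ) (Nat.cast_nonneg p) p
  have hf : (0 : ℝ) < p.factorial := by exact_mod_cast p.factorial_pos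
  rw [div_le_iff₀ hf] at h2
  have h3 : Real.exp (p : ℝ) = Real.exp 1 ^ p := by rw [← Real.exp_nat_mul, mul_one]
  rw [h3] at h2
  have h4 : (n : ℝ) ^ p * p.factorial ≤ (Real.exp 1 ^ p * (n.descFactorial p : ℝ)) * p.factorial :=
    calc (n : ℝ) ^ p * p.factorial ≤ (n.descFactorial p : ℝ) * (p : ℝ) ^ p := h1
      _ ≤ (n.descFactorial p : ℝ) * (Real.exp 1 ^ p * p.factorial) :=
        mul_le_mul_of_nonneg_left h2 (Nat.cast_nonneg _)
      _ = _ := by ring
  exact le_of_mul_le_mul_right h4 hf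

theorem pow_self_le (N : ℕ) (hN : 2 ≤ N) :
    (N : ℝ) ^ N * Real.exp 1 ^ 2 ≤ 2 * Real.exp 1 ^ N * N.factorial := by
  induction N, hN using Nat.le_induction with
  | base => norm_num [Nat.factorial]; linarith [Real.exp_pos 2]
  | succ N hN ih =>
    have hN0 : (0 : ℝ) < N := by positivity
    have h1 : ((N : ℝ) + 1) ^ N ≤ Real.exp 1 * (N : ℝ) ^ N := by
      have h2 : (1 + 1 / (N : ℝ)) ≤ Real.exp (1 / N) := by
        have := Real.add_one_le_exp (1 / (N : ℝ)); linarith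
      have h3 := pow_le_pow_left₀ (by positivity) h2 N
      rw [← Real.exp_nat_mul, mul_one_div_cancel hN0.ne'] at h3
      calc ((N : ℝ) + 1) ^ N = ((1 + 1 / (N : ℝ)) * N) ^ N := by
            congr 1; field_simp
        _ = (1 + 1 / (N : ℝ)) ^ N * (N : ℝ) ^ N := mul_pow _ _ _
        _ ≤ _ := mul_le_mul_of_nonneg_right h3 (by positivity)
    push_cast [Nat.factorial_succ]
    calc ((N : ℝ) + 1) ^ (N + 1) * Real.exp 1 ^ 2
        = ((N : ℝ) + 1) ^ N * (((N : ℝ) + 1) * Real.exp 1 ^ 2) := by rw [pow_succ]; ring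
      _ ≤ (Real.exp 1 * (N : ℝ) ^ N) * (((N : ℝ) + 1) * Real.exp 1 ^ 2) :=
          mul_le_mul_of_nonneg_right h1 (by positivity)
      _ = (Real.exp 1 * ((N : ℝ) + 1)) * ((N : ℝ) ^ N * Real.exp 1 ^ 2) := by ring
      _ ≤ (Real.exp 1 * ((N : ℝ) + 1)) * (2 * Real.exp 1 ^ N * N.factorial) :=
          mul_le_mul_of_nonneg_left ih (by positivity)
      _ = _ := by rw [pow_succ]; ring

/-- the arithmetic estimate for one term -/
theorem term_le (m k : ℕ) (hk : 0 < k) (hkm : k ≤ m) (κ : ℝ) (hκ : 0 < κ) :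
    (m.choose k : ℝ) * (κ ^ (m - k) * ((2 * m).factorial / ((2 * m).descFactorial (2 * k) *
      (2 * k).factorial) * (k.factorial * (21600 * Real.exp 1 * (k : ℝ) ^ 2 *
        (1 / 10 ^ 6 * κ * (2 * m))) ^ k))) ≤
    (κ ^ m * (2 * m).factorial) * (2 / Real.exp 1 ^ 2 *
      (2700 * Real.exp 1 ^ 5 * (1 / 10 ^ 6)) ^ k) := by
  have he := Real.exp_pos 1
  have hm : 0 < m := lt_of_lt_of_le hk hkm
  have hm' : (0 : ℝ) < m := by exact_mod_cast hm
  have hk' : (0 : ℝ) < k := by exact_mod_cast hk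
  set e := Real.exp 1 with hedef
  -- three estimates
  have h1 : (m.choose k : ℝ) * k.factorial ≤ (m : ℝ) ^ k := by
    have : m.choose k * k.factorial ≤ m ^ k := by
      rw [mul_comm, ← Nat.descFactorial_eq_factorial_mul_choose]
      exact Nat.descFactorial_le_pow m k
    exact_mod_cast this
  have h2 : ((2 * m : ℕ) : ℝ) ^ (2 * k) ≤ e ^ (2 * k) * ((2 * m).descFactorial (2 * k) : ℝ) :=
    pow_le_exp_desc (2 * m) (2 * k) (by omega)
  have h3 : ((2 * k : ℕ) : ℝ) ^ (2 * k) * e ^ 2 ≤ 2 * e ^ (2 * k) * (2 * k).factorial :=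
    pow_self_le (2 * k) (by omega)
  have hD : (0 : ℝ) < ((2 * m).descFactorial (2 * k) : ℝ) := by
    have : 0 < (2 * m).descFactorial (2 * k) := Nat.descFactorial_pos.mpr (by omega)
    exact_mod_cast this
  have hF : (0 : ℝ) < ((2 * k).factorial : ℝ) := by exact_mod_cast (2 * k).factorial_pos
  have hM : (0 : ℝ) < ((2 * m).factorial : ℝ) := by exact_mod_cast (2 * m).factorial_pos
  set D := ((2 * m).descFactorial (2 * k) : ℝ)
  set F := ((2 * k).factorial : ℝ)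
  set M := ((2 * m).factorial : ℝ)
  push_cast at h2 h3
  -- reorganise
  have hκp : κ ^ (m - k) * κ ^ k = κ ^ m := by rw [← pow_add, Nat.sub_add_cancel hkm]
  have e1 : (m.choose k : ℝ) * (κ ^ (m - k) * (M / (D * F) * (k.factorial *
      (21600 * e * (k : ℝ) ^ 2 * (1 / 10 ^ 6 * κ * (2 * m))) ^ k))) =
      (κ ^ m * M) * (((m.choose k : ℝ) * k.factorial) * (21600 * e * (1 / 10 ^ 6)) ^ k *
        ((k : ℝ) ^ (2 * k) / F) * ((2 * m : ℝ) ^ k / D)) := by
    rw [← hκp]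
    have : (21600 * e * (k : ℝ) ^ 2 * (1 / 10 ^ 6 * κ * (2 * m))) ^ k =
        κ ^ k * (21600 * e * (1 / 10 ^ 6)) ^ k * (k : ℝ) ^ (2 * k) * (2 * m : ℝ) ^ k := by
      rw [pow_mul, ← mul_pow, ← mul_pow, ← mul_pow]
      congr 1
      ring
    rw [this]
    field_simp
  rw [e1]
  refine mul_le_mul_of_nonneg_left ?_ (by positivity)
  have h4 : (k : ℝ) ^ (2 * k) / F ≤ 2 / e ^ 2 * (e ^ 2 / 4) ^ k := by
    rw [div_le_iff₀ hF]
    have e2 : (2 * (k : ℝ)) ^ (2 * k) = 4 ^ k * (k : ℝ) ^ (2 * k) := by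
      rw [mul_pow, pow_mul 2 2 k]; norm_num
    rw [e2] at h3
    have h5 : (k : ℝ) ^ (2 * k) * (4 ^ k * e ^ 2) ≤ 2 * e ^ (2 * k) * F := by linarith
    rw [← le_div_iff₀ (by positivity)] at h5
    refine h5.trans (le_of_eq ?_)
    rw [div_pow, ← pow_mul]
    field_simp
  have h6 : (2 * m : ℝ) ^ k / D ≤ e ^ (2 * k) / (2 * m : ℝ) ^ k := by
    rw [div_le_div_iff₀ hD (by positivity), ← pow_add, ← two_mul]
    exact h2
  calc ((m.choose k : ℝ) * k.factorial) * (21600 * e * (1 / 10 ^ 6)) ^ k *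
        ((k : ℝ) ^ (2 * k) / F) * ((2 * m : ℝ) ^ k / D)
      ≤ (m : ℝ) ^ k * (21600 * e * (1 / 10 ^ 6)) ^ k *
        (2 / e ^ 2 * (e ^ 2 / 4) ^ k) * (e ^ (2 * k) / (2 * m : ℝ) ^ k) := by
        gcongr
    _ = 2 / e ^ 2 * ((m : ℝ) * (21600 * e * (1 / 10 ^ 6)) * (e ^ 2 / 4) *
          (e ^ 2 / (2 * m : ℝ))) ^ k := by
        rw [pow_mul e 2 k]
        simp only [mul_pow, div_pow]
        ring
    _ = 2 / e ^ 2 * (2700 * e ^ 5 * (1 / 10 ^ 6)) ^ k := by
        congr 2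
        field_simp
        norm_num

theorem geom_part (m : ℕ) :
    ∑ k ∈ Finset.Icc 1 m, (2 / Real.exp 1 ^ 2 *
      (2700 * Real.exp 1 ^ 5 * (1 / 10 ^ 6)) ^ k) ≤ 1 / 5 := by
  have he1 := Real.exp_one_gt_d9
  have he2 := Real.exp_one_lt_d9
  set e := Real.exp 1
  have hx0 : 0 ≤ 2700 * e ^ 5 * (1 / 10 ^ 6) := by positivity
  have hx : 2700 * e ^ 5 * (1 / 10 ^ 6) ≤ 0.401 := by
    have : e ^ 5 ≤ 2.7182818286 ^ 5 := pow_le_pow_left₀ (by positivity) he2.le 5
    norm_num at this ⊢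
    linarith
  have hc : 2 / e ^ 2 ≤ 0.271 := by
    rw [div_le_iff₀ (by positivity)]
    have : 2.7182818283 ^ 2 ≤ e ^ 2 := pow_le_pow_left₀ (by norm_num) he1.le 2
    norm_num at this ⊢
    linarith
  have h1 : ∀ k ∈ Finset.Icc 1 m, (2 / e ^ 2 * (2700 * e ^ 5 * (1 / 10 ^ 6)) ^ k) ≤
      0.271 * 0.401 ^ k := by
    intro k _
    exact mul_le_mul hc (pow_le_pow_left₀ hx0 hx k) (by positivity) (by norm_num)
  refine (Finset.sum_le_sum h1).trans ?_
  rw [← Finset.mul_sum]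
  have h2 : ∑ k ∈ Finset.Icc 1 m, (0.401 : ℝ) ^ k ≤ 0.67 := by
    have h3 : ∑ k ∈ Finset.Icc 1 m, (0.401 : ℝ) ^ k = ∑ k ∈ Finset.range (m + 1), (0.401 : ℝ) ^ k - 1 := by
      rw [Finset.sum_range_succ', Finset.range_eq_Ico, Finset.sum_Ico_add' (fun k => (0.401 : ℝ) ^ k) 0 m 1]
      simp only [zero_add, pow_zero]
      rw [add_sub_cancel_right]
      rfl
    rw [h3, geom_sum_eq (by norm_num), sub_le_iff_le_add, div_le_iff_of_neg (by norm_num)]
    have h4 : (0 : ℝ) ≤ 0.401 ^ (m + 1) := by positivity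
    have h5 : (0.67 + 1 : ℝ) * (0.401 - 1) ≤ -1 := by norm_num
    linarith
  nlinarith

end numbers

section assembly

variable {B : Type*} [Fintype B] [DecidableEq B]
  {E : B × Bool → B × Bool → B × Bool → B × Bool → ℝ}

theorem term_bound (hE : Sym4 E) (hscal : ∑ i, ricc E i i = 0)
    {a : ℝ} (ha : 0 ≤ a) (h4 : ∑ i, ∑ j, ∑ p, ∑ l, E i j p l ^ 2 ≤ a ^ 2)
    (h2 : ∑ i, ∑ j, ricc E i j ^ 2 ≤ a ^ 2) (T : Finset B) (hT : 0 < T.card) :
    |∑ σ : Equiv.Perm (B × Bool), yf (pb (Cl E) (σ ∘ iT T))| ≤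
      (2 * Fintype.card B).factorial / ((2 * Fintype.card B).descFactorial (2 * T.card) *
        (2 * T.card).factorial) * (T.card.factorial *
          (21600 * Real.exp 1 * (T.card : ℝ) ^ 2 * a) ^ T.card) := by
  have hTc : Fintype.card T = T.card := Fintype.card_coe T
  have hTm : T.card ≤ Fintype.card B := Finset.card_le_univ T
  have c1 : Fintype.card (B × Bool) = 2 * Fintype.card B := by
    rw [Fintype.card_prod, Fintype.card_bool]; ring
  have c2 : Fintype.card (T × Bool) = 2 * T.card := by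
    rw [Fintype.card_prod, Fintype.card_bool, hTc]; ring
  have h5 := sum_perm_eq (fun i : T × Bool → B × Bool => yf (pb (Cl E) i))
    (fun i hi => yf_noninj (Cl E) i hi) (iT T) (iT_injective T)
  have h6 := sum_Yf (T := T) (Cl E)
  have h7 := sum_Yf_bound (T := T) (by rw [hTc]; exact hT) hE hscal ha h4 h2
  rw [h6, hTc, c2, abs_mul, Nat.abs_cast] at h7
  rw [c1, c2] at h5
  have hD : (0 : ℝ) < ((2 * Fintype.card B).descFactorial (2 * T.card) : ℝ) := by
    have : 0 < (2 * Fintype.card B).descFactorial (2 * T.card) :=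
      Nat.descFactorial_pos.mpr (by omega)
    exact_mod_cast this
  have hF : (0 : ℝ) < ((2 * T.card).factorial : ℝ) := by exact_mod_cast (2 * T.card).factorial_pos
  have h8 : ∑ σ : Equiv.Perm (B × Bool), yf (pb (Cl E) (σ ∘ iT T)) =
      (2 * Fintype.card B).factorial / ((2 * Fintype.card B).descFactorial (2 * T.card)) *
        ∑ i : T × Bool → B × Bool, yf (pb (Cl E) i) := by
    rw [div_mul_eq_mul_div, eq_div_iff hD.ne', ← h5]
    ring
  rw [h8, abs_mul, abs_of_nonneg (by positivity)]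
  rw [div_mul_eq_div_div, div_mul_eq_mul_div _ _ (_ * _), mul_div_assoc]
  refine mul_le_mul_of_nonneg_left ?_ (by positivity)
  rw [le_div_iff₀ hF, mul_comm]
  exact h7

/-- **Main estimate.** -/
theorem main_bound (hE : Sym4 E) (hscal : ∑ i, ricc E i i = 0) {κ : ℝ} (hκ : 0 < κ)
    (h4 : ∑ i, ∑ j, ∑ p, ∑ l, E i j p l ^ 2 ≤ (1 / 10 ^ 6 * κ * (2 * Fintype.card B)) ^ 2)
    (h2 : ∑ i, ∑ j, ricc E i j ^ 2 ≤ (1 / 10 ^ 6 * κ * (2 * Fintype.card B)) ^ 2) :
    |Yf (fun a b c d => κ * (if a = b then 1 else 0) * (if c = d then 1 else 0) + Cl E a b c d) -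
      κ ^ Fintype.card B * (2 * Fintype.card B).factorial| ≤
      1 / 5 * (κ ^ Fintype.card B * (2 * Fintype.card B).factorial) := by
  set m := Fintype.card B with hm
  set a : ℝ := 1 / 10 ^ 6 * κ * (2 * m) with ha
  have ha0 : 0 ≤ a := by positivity
  rw [Yf_expand]
  have hsplit := Finset.sum_erase_add (Finset.univ : Finset (Finset B))
    (fun T => κ ^ (m - T.card) * ∑ σ : Equiv.Perm (B × Bool), yf (pb (Cl E) (σ ∘ iT T)))
    (Finset.mem_univ ∅)
  rw [← hsplit]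
  have hempty : κ ^ (m - (∅ : Finset B).card) *
      ∑ σ : Equiv.Perm (B × Bool), yf (pb (Cl E) (σ ∘ iT (∅ : Finset B))) =
      κ ^ m * (2 * m).factorial := by
    have : ∀ σ : Equiv.Perm (B × Bool), yf (pb (Cl E) (σ ∘ iT (∅ : Finset B))) = 1 := by
      intro σ
      simp [yf, sn]
    simp only [this]
    rw [Finset.sum_const, Finset.card_univ, Fintype.card_perm, Fintype.card_prod,
      Fintype.card_bool, Finset.card_empty, Nat.sub_zero, nsmul_eq_mul, mul_one, mul_comm 2 m, hm]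
  rw [hempty, add_sub_cancel_right]
  refine (Finset.abs_sum_le_sum_abs _ _).trans ?_
  have h5 : ∀ T ∈ (Finset.univ : Finset (Finset B)).erase ∅,
      |κ ^ (m - T.card) * ∑ σ : Equiv.Perm (B × Bool), yf (pb (Cl E) (σ ∘ iT T))| ≤
      κ ^ (m - T.card) * ((2 * m).factorial / ((2 * m).descFactorial (2 * T.card) *
        (2 * T.card).factorial) * (T.card.factorial *
          (21600 * Real.exp 1 * (T.card : ℝ) ^ 2 * a) ^ T.card)) := by
    intro T hT
    rw [abs_mul, abs_of_nonneg (by positivity)]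
    refine mul_le_mul_of_nonneg_left ?_ (by positivity)
    exact term_bound hE hscal ha0 h4 h2 T
      (Finset.card_pos.mpr (Finset.nonempty_iff_ne_empty.mpr (Finset.ne_of_mem_erase hT)))
  refine (Finset.sum_le_sum h5).trans ?_
  -- group by cardinality
  set g : ℕ → ℝ := fun k => if k = 0 then 0 else κ ^ (m - k) * ((2 * m).factorial /
    ((2 * m).descFactorial (2 * k) * (2 * k).factorial) * (k.factorial *
          (21600 * Real.exp 1 * (k : ℝ) ^ 2 * a) ^ k)) with hg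
  have h6 : ∑ T ∈ (Finset.univ : Finset (Finset B)).erase ∅,
      κ ^ (m - T.card) * ((2 * m).factorial / ((2 * m).descFactorial (2 * T.card) *
        (2 * T.card).factorial) * (T.card.factorial *
          (21600 * Real.exp 1 * (T.card : ℝ) ^ 2 * a) ^ T.card)) =
      ∑ T ∈ (Finset.univ : Finset B).powerset, g T.card := by
    rw [Finset.powerset_univ, ← Finset.sum_erase_add _ _ (Finset.mem_univ (∅ : Finset B))]
    have h7 : g (∅ : Finset B).card = 0 := by simp [hg]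
    rw [h7, add_zero]
    refine Finset.sum_congr rfl fun T hT => ?_
    have : T.card ≠ 0 := by
      rw [Ne, Finset.card_eq_zero]; exact Finset.ne_of_mem_erase hT
    simp only [hg, if_neg this]
  rw [h6, Finset.sum_powerset_apply_card, Finset.card_univ, ← hm, Finset.sum_range_succ']
  have h8 : (m.choose 0) • g 0 = 0 := by simp [hg]
  rw [h8, add_zero]
  have h9 : ∀ k ∈ Finset.range m, (m.choose (k + 1)) • g (k + 1) ≤
      (κ ^ m * (2 * m).factorial) * (2 / Real.exp 1 ^ 2 *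
      (2700 * Real.exp 1 ^ 5 * (1 / 10 ^ 6)) ^ (k + 1)) := by
    intro k hk
    have hkm : k + 1 ≤ m := Finset.mem_range.mp hk
    have := term_le m (k + 1) (Nat.succ_pos k) hkm κ hκ
    rw [nsmul_eq_mul]
    simp only [hg, if_neg (Nat.succ_ne_zero k), ha]
    exact this
  refine (Finset.sum_le_sum h9).trans ?_
  rw [← Finset.mul_sum, mul_comm (1 / 5 : ℝ)]
  refine mul_le_mul_of_nonneg_left ?_ (by positivity)
  have h10 : ∑ k ∈ Finset.range m, (2 / Real.exp 1 ^ 2 *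
      (2700 * Real.exp 1 ^ 5 * (1 / 10 ^ 6)) ^ (k + 1)) =
      ∑ k ∈ Finset.Icc 1 m, (2 / Real.exp 1 ^ 2 *
      (2700 * Real.exp 1 ^ 5 * (1 / 10 ^ 6)) ^ k) := by
    rw [Finset.range_eq_Ico, Finset.sum_Ico_add' (fun k => 2 / Real.exp 1 ^ 2 *
      (2700 * Real.exp 1 ^ 5 * (1 / 10 ^ 6)) ^ k) 0 m 1]
    rfl
  rw [h10]
  exact geom_part m

end assembly

end Pool.Agent.W666.GB
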