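import Pool.Agent.W666.GB.Final

/-!
# From curvature tensors to symmetric tensors
-/

set_option autoImplicit false

namespace Pool.Agent.W666.GB

open Finset

section lift2

variable {B : Type*} [Fintype B] [DecidableEq B]

/-- swaps inside the blocks selected by `u` -/
def bs (u : B → Bool) : Equiv.Perm (B × Bool) :=
  Equiv.prodCongrRight (fun b => if u b then Equiv.swap false true else Equiv.refl Bool)

theorem sn_bs (u : B → Bool) : sn (bs u) = ∏ b, (if u b then (-1 : ℝ) else 1) := by
  unfold sn bs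
  rw [Equiv.Perm.sign_prodCongrRight]
  push_cast
  refine Finset.prod_congr rfl fun b _ => ?_
  split_ifs with h
  · simp
  · simp

theorem lift_sum (C R' : B × Bool → B × Bool → B × Bool → B × Bool → ℝ)
    (h : ∀ i j k l, R' i j k l = C i k j l - C i l j k) :
    ∑ σ : Equiv.Perm (B × Bool), ∑ τ : Equiv.Perm (B × Bool), sn σ * sn τ *
      ∏ b : B, R' (σ (b, false)) (σ (b, true)) (τ (b, false)) (τ (b, true)) =
      2 ^ Fintype.card B * Yf C := by
  have h1 : ∀ u : B → Bool, Yf C = ∑ σ : Equiv.Perm (B × Bool), ∑ τ : Equiv.Perm (B × Bool),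
      sn σ * sn τ * ∏ b : B, (if u b
        then -C (σ (b, false)) (τ (b, true)) (σ (b, true)) (τ (b, false))
        else C (σ (b, false)) (τ (b, false)) (σ (b, true)) (τ (b, true))) := by
    intro u
    rw [Yf]
    refine Finset.sum_congr rfl fun σ _ => ?_
    rw [← Equiv.sum_comp (Equiv.mulRight (bs u))]
    refine Finset.sum_congr rfl fun τ _ => ?_
    simp only [Equiv.coe_mulRight, sn_mul, Equiv.Perm.mul_apply, sn_bs]
    rw [← mul_assoc, mul_assoc (sn σ * sn τ), ← Finset.prod_mul_distrib]
    congr 1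
    refine Finset.prod_congr rfl fun b _ => ?_
    by_cases hb : u b
    · simp [hb, bs]
    · simp [hb, bs]
  have h2 : ∑ u : B → Bool, Yf C = 2 ^ Fintype.card B * Yf C := by
    rw [Finset.sum_const, Finset.card_univ, Fintype.card_fun, Fintype.card_bool, nsmul_eq_mul]
    push_cast
    rfl
  rw [← h2]
  have h3 : ∑ u : B → Bool, Yf C = _ :=
    Finset.sum_congr (s₁ := (Finset.univ : Finset (B → Bool))) rfl fun u _ => h1 u
  rw [h3]
  symm
  rw [Finset.sum_comm]
  refine Finset.sum_congr rfl fun σ _ => ?_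
  rw [Finset.sum_comm]
  refine Finset.sum_congr rfl fun τ _ => ?_
  rw [← Finset.mul_sum]
  congr 1
  rw [← Fintype.prod_sum (fun (b : B) (β : Bool) => if β
        then -C (σ (b, false)) (τ (b, true)) (σ (b, true)) (τ (b, false))
        else C (σ (b, false)) (τ (b, false)) (σ (b, true)) (τ (b, true)))]
  refine Finset.prod_congr rfl fun b _ => ?_
  rw [Fintype.sum_bool, h]
  simp
  ring

end lift2

section curv

variable {V : Type*} [NormedAddCommGroup V] [InnerProductSpace ℝ V]

/-- Algebraic curvature tensors; `R x y x y` is the sectional curvature of the plane spanned by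
the orthonormal pair `x, y`. (Linearity in the first argument and the symmetries imply linearity
in every argument.) -/
structure AlgCurv (R : V → V → V → V → ℝ) : Prop where
  add : ∀ x x' y z w, R (x + x') y z w = R x y z w + R x' y z w
  smul : ∀ (t : ℝ) (x y z w : V), R (t • x) y z w = t * R x y z w
  anti : ∀ x y z w, R y x z w = - R x y z w
  pair : ∀ x y z w, R z w x y = R x y z w
  bianchi : ∀ x y z w, R x y z w + R y z x w + R z x y w = 0

/-- all sectional curvatures lie in the interval `[a, b]` -/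
def SecIn (R : V → V → V → V → ℝ) (a b : ℝ) : Prop :=
  ∀ x y : V, ‖x‖ = 1 → ‖y‖ = 1 → inner ℝ x y = 0 → a ≤ R x y x y ∧ R x y x y ≤ b

variable {m : ℕ}

/-- The Gauss–Bonnet–Chern integrand in dimension `2 m`, computed in the orthonormal basis `e`,
normalised so that its integral over a closed Riemannian `2 m`-manifold is the Euler
characteristic. -/
noncomputable def gbc (e : OrthonormalBasis (Fin m × Bool) ℝ V) (R : V → V → V → V → ℝ) : ℝ :=
  1 / ((8 * Real.pi) ^ m * m.factorial) *
    ∑ σ : Equiv.Perm (Fin m × Bool), ∑ τ : Equiv.Perm (Fin m × Bool),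
      ((Equiv.Perm.sign σ : ℤ) : ℝ) * ((Equiv.Perm.sign τ : ℤ) : ℝ) *
        ∏ b : Fin m, R (e (σ (b, false))) (e (σ (b, true))) (e (τ (b, false))) (e (τ (b, true)))

/-- the absolute value of the Gauss–Bonnet–Chern integrand for constant curvature `c` or `-c` -/
noncomputable def roundGB (m : ℕ) (c : ℝ) : ℝ :=
  (2 * m).factorial / ((4 * Real.pi) ^ m * m.factorial) * c ^ m

/-- components of the tensor of constant curvature one -/
def unitCurv {J : Type*} [DecidableEq J] (i j k l : J) : ℝ :=
  (if i = k then 1 else 0) * (if j = l then 1 else 0) -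
    (if i = l then 1 else 0) * (if j = k then 1 else 0)

/-- scalar curvature -/
noncomputable def scal (e : OrthonormalBasis (Fin m × Bool) ℝ V) (R : V → V → V → V → ℝ) : ℝ :=
  ∑ i, ∑ j, R (e i) (e j) (e i) (e j)

/-- squared Hilbert–Schmidt distance of `R` to the tensor of constant curvature `-κ` -/
noncomputable def devR (e : OrthonormalBasis (Fin m × Bool) ℝ V) (R : V → V → V → V → ℝ)
    (κ : ℝ) : ℝ :=
  ∑ i, ∑ j, ∑ k, ∑ l, (R (e i) (e j) (e k) (e l) + κ * unitCurv i j k l) ^ 2

/-- squared Hilbert–Schmidt distance of the Ricci tensor of `R` to that of the tensor of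
constant curvature `-κ` -/
noncomputable def devRic (e : OrthonormalBasis (Fin m × Bool) ℝ V) (R : V → V → V → V → ℝ)
    (κ : ℝ) : ℝ :=
  ∑ j, ∑ l, (∑ i, R (e i) (e j) (e i) (e l) + (2 * m - 1) * κ * (if j = l then 1 else 0)) ^ 2

/-- the difference of the tensor of constant curvature `κ` and `-R`, in components -/
noncomputable def EE (e : OrthonormalBasis (Fin m × Bool) ℝ V) (R : V → V → V → V → ℝ) (κ : ℝ)
    (i j k l : Fin m × Bool) : ℝ :=
  -(R (e i) (e j) (e k) (e l) + κ * unitCurv i j k l)

variable (e : OrthonormalBasis (Fin m × Bool) ℝ V) {R : V → V → V → V → ℝ}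

theorem EE_sym (hR : AlgCurv R) (κ : ℝ) : Sym4 (EE e R κ) where
  a12 i j k l := by
    simp only [EE, unitCurv]
    rw [hR.anti (e j) (e i)]; ring
  a34 i j k l := by
    simp only [EE, unitCurv]
    rw [← hR.pair (e i) (e j) (e k) (e l), ← hR.pair (e i) (e j) (e l) (e k),
      hR.anti (e l) (e k)]; ring
  pair i j k l := by
    simp only [EE, unitCurv]
    rw [hR.pair (e i) (e j) (e k) (e l)]
    simp only [eq_comm (a := k) (b := i), eq_comm (a := l) (b := j), eq_comm (a := k) (b := j),
      eq_comm (a := l) (b := i)]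
    ring

theorem ricc_EE (κ : ℝ) (j l : Fin m × Bool) :
    ricc (EE e R κ) j l = -(∑ i, R (e i) (e j) (e i) (e l) +
      (2 * m - 1) * κ * (if j = l then 1 else 0)) := by
  simp only [ricc, EE, Finset.sum_neg_distrib, Finset.sum_add_distrib, ← Finset.mul_sum]
  have : ∑ i : Fin m × Bool, unitCurv i j i l = (2 * m - 1) * (if j = l then 1 else 0) := by
    simp only [unitCurv, if_true, one_mul, Finset.sum_sub_distrib, Finset.sum_const,
      Finset.card_univ, Fintype.card_prod, Fintype.card_fin, Fintype.card_bool, nsmul_eq_mul]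
    rw [Finset.sum_eq_single l]
    · simp only [if_true, one_mul, eq_comm (a := j) (b := l)]
      push_cast; ring
    · intro i _ hi; rw [if_neg hi, zero_mul]
    · intro h; exact absurd (Finset.mem_univ _) h
  rw [this]; ring

theorem Cl_lift (hR : AlgCurv R) (κ : ℝ) (i j k l : Fin m × Bool) :
    -R (e i) (e j) (e k) (e l) =
      (κ * (if i = k then 1 else 0) * (if j = l then 1 else 0) + Cl (EE e R κ) i k j l) -
      (κ * (if i = l then 1 else 0) * (if j = k then 1 else 0) + Cl (EE e R κ) i l j k) := by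
  have hb := hR.bianchi (e j) (e k) (e l) (e i)
  rw [← hR.pair (e j) (e k) (e l) (e i), ← hR.pair (e k) (e l) (e j) (e i),
    ← hR.pair (e l) (e j) (e k) (e i), hR.anti (e i) (e l), hR.anti (e i) (e j),
    hR.anti (e i) (e k)] at hb
  have h34 : ∀ x y z w : V, R x y z w = -R x y w z := fun x y z w => by
    rw [← hR.pair x y z w, ← hR.pair x y w z, hR.anti w z]
  have h1 := h34 (e i) (e l) (e k) (e j)
  have h2 := h34 (e i) (e j) (e l) (e k)
  simp only [Cl, EE, unitCurv]
  rw [h1, h2]
  simp only [eq_comm (a := l) (b := j), eq_comm (a := l) (b := k), eq_comm (a := k) (b := j)]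
  linear_combination (1 / 3) * hb

theorem neg_gbc_eq (hR : AlgCurv R) (κ : ℝ) :
    (-1) ^ m * gbc e R = 2 ^ m / ((8 * Real.pi) ^ m * m.factorial) *
      Yf (fun a b c d => κ * (if a = b then 1 else 0) * (if c = d then 1 else 0) +
        Cl (EE e R κ) a b c d) := by
  have h1 := lift_sum (B := Fin m) (fun a b c d => κ * (if a = b then 1 else 0) *
    (if c = d then 1 else 0) + Cl (EE e R κ) a b c d)
    (fun i j k l => -R (e i) (e j) (e k) (e l)) (Cl_lift e hR κ)
  rw [Fintype.card_fin] at h1
  rw [div_mul_eq_mul_div, ← h1, gbc]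
  have h2 : ∀ σ τ : Equiv.Perm (Fin m × Bool), ∏ b : Fin m,
      -R (e (σ (b, false))) (e (σ (b, true))) (e (τ (b, false))) (e (τ (b, true))) =
      (-1) ^ m * ∏ b : Fin m,
        R (e (σ (b, false))) (e (σ (b, true))) (e (τ (b, false))) (e (τ (b, true))) := by
    intro σ τ
    rw [Finset.prod_neg, Finset.card_univ, Fintype.card_fin]
  simp only [h2, sn, Finset.mul_sum, Finset.sum_div]
  refine Finset.sum_congr rfl fun σ _ => Finset.sum_congr rfl fun τ _ => ?_
  ring

theorem gbc_close (hR : AlgCurv R) {κ : ℝ} (hκ : 0 < κ)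
    (hs : scal e R = -(κ * (2 * m * (2 * m - 1))))
    (h4 : devR e R κ ≤ (1 / 10 ^ 6 * κ * (2 * m)) ^ 2)
    (h2 : devRic e R κ ≤ (1 / 10 ^ 6 * κ * (2 * m)) ^ 2) :
    |(-1) ^ m * gbc e R - roundGB m κ| ≤ 1 / 5 * roundGB m κ := by
  have hE := EE_sym e hR κ
  have hsc : ∑ i, ricc (EE e R κ) i i = 0 := by
    simp only [ricc_EE, if_true, Finset.sum_neg_distrib, Finset.sum_add_distrib,
      Finset.sum_const, Finset.card_univ, Fintype.card_prod, Fintype.card_fin, Fintype.card_bool,
      nsmul_eq_mul]
    have : ∑ i, ∑ j, R (e j) (e i) (e j) (e i) = scal e R := by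
      rw [scal, Finset.sum_comm]
    rw [this, hs]
    push_cast; ring
  have hb := main_bound hE hsc hκ (by
      rw [Fintype.card_fin]
      refine le_trans (le_of_eq ?_) h4
      simp only [EE, neg_sq, devR]) (by
      rw [Fintype.card_fin]
      refine le_trans (le_of_eq ?_) h2
      simp only [ricc_EE, neg_sq, devRic])
  rw [Fintype.card_fin] at hb
  have hπ := Real.pi_pos
  have hr : roundGB m κ = 2 ^ m / ((8 * Real.pi) ^ m * m.factorial) *
      (κ ^ m * (2 * m).factorial) := by
    unfold roundGB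
    have : (8 * Real.pi) ^ m = 2 ^ m * (4 * Real.pi) ^ m := by
      rw [← mul_pow]; congr 1; ring
    rw [this]
    field_simp
  have hc : 0 < 2 ^ m / ((8 * Real.pi) ^ m * (m.factorial : ℝ)) := by positivity
  rw [neg_gbc_eq e hR κ, hr, ← mul_sub, abs_mul, abs_of_pos hc]
  calc _ ≤ 2 ^ m / ((8 * Real.pi) ^ m * (m.factorial : ℝ)) *
        (1 / 5 * (κ ^ m * (2 * m).factorial)) := mul_le_mul_of_nonneg_left hb hc.le
    _ = _ := by ring

end curv

end Pool.Agent.W666.GB
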