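import Pool.Agent.W666.GB.Hyper

/-!
# Mixed discriminants, and a bound for the double alternating form
-/

set_option autoImplicit false

namespace Pool.Agent.W666.GB

open Finset

section sn

variable {P : Type*} [Fintype P] [DecidableEq P]

/-- real sign of a permutation -/
def sn (π : Equiv.Perm P) : ℝ := ((Equiv.Perm.sign π : ℤ) : ℝ)

theorem sn_mul (π ρ : Equiv.Perm P) : sn (π * ρ) = sn π * sn ρ := by
  simp [sn, Equiv.Perm.sign_mul]

theorem sn_inv (π : Equiv.Perm P) : sn π⁻¹ = sn π := by
  simp [sn, Equiv.Perm.sign_inv]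

theorem sn_mul_self (π : Equiv.Perm P) : sn π * sn π = 1 := by
  simp only [sn, ← Int.cast_mul, ← Units.val_mul, Int.units_mul_self]; simp

theorem sn_one : sn (1 : Equiv.Perm P) = 1 := by simp [sn]

theorem abs_sn (π : Equiv.Perm P) : |sn π| = 1 := by
  rcases Int.units_eq_one_or (Equiv.Perm.sign π) with h | h <;> simp [sn, h]

end sn

section polar

variable {P : Type*} [Fintype P] [DecidableEq P]

/-- mixed discriminant -/
noncomputable def MD (X : P → P → P → ℝ) : ℝ :=
  ∑ π : Equiv.Perm P, ∑ π' : Equiv.Perm P, sn π * sn π' * ∏ a, X a (π a) (π' a)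

theorem av_sg_prod (b : P → P) [Decidable (Function.Bijective b)] :
    av (fun s : P → Bool => (∏ a, sg (s a)) * ∏ i, sg (s (b i))) =
      if Function.Bijective b then 1 else 0 := by
  split_ifs with hb
  · have : ∀ s : P → Bool, (∏ a, sg (s a)) * ∏ i, sg (s (b i)) = 1 := by
      intro s
      rw [hb.prod_comp (fun a => sg (s a)), ← Finset.prod_mul_distrib]
      simp
    simp only [this, av_const]
  · have hs : ¬ Function.Surjective b := fun h => hb (Finite.surjective_iff_bijective.mp h)
    simp only [Function.Surjective, not_forall, not_exists] at hs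
    obtain ⟨a₀, ha₀⟩ := hs
    rw [av_resample a₀]
    have : ∀ (s : P → Bool) (v : Bool), (∏ a, sg (Function.update s a₀ v a)) *
        ∏ i, sg (Function.update s a₀ v (b i)) =
        sg v * ((∏ a ∈ Finset.univ.erase a₀, sg (s a)) * ∏ i, sg (s (b i))) := by
      intro s v
      rw [← Finset.mul_prod_erase _ _ (Finset.mem_univ a₀), Function.update_self]
      have h1 : ∏ a ∈ Finset.univ.erase a₀, sg (Function.update s a₀ v a) =
          ∏ a ∈ Finset.univ.erase a₀, sg (s a) :=
        Finset.prod_congr rfl fun a ha => by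
          rw [Function.update_of_ne (Finset.ne_of_mem_erase ha)]
      have h2 : ∏ i, sg (Function.update s a₀ v (b i)) = ∏ i, sg (s (b i)) :=
        Finset.prod_congr rfl fun i _ => by rw [Function.update_of_ne (ha₀ i)]
      rw [h1, h2]; ring
    simp only [this, av_mul_right, av_sg, zero_mul, av_const]

open Classical in
theorem sum_bij_perm (g : (P → P) → ℝ) :
    ∑ b : P → P, (if Function.Bijective b then 1 else 0) * g b = ∑ β : Equiv.Perm P, g β := by
  symm
  refine Fintype.sum_of_injective (fun β : Equiv.Perm P => (β : P → P))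
    DFunLike.coe_injective _ _ ?_ ?_
  · intro b hb
    have : ¬ Function.Bijective b := fun h => hb ⟨Equiv.ofBijective b h, rfl⟩
    rw [if_neg this, zero_mul]
  · intro β
    rw [if_pos β.bijective, one_mul]

theorem MD_eq (X : P → P → P → ℝ) :
    MD X = av (fun s : P → Bool => (∏ a, sg (s a)) *
      Matrix.det (Matrix.of fun i j => ∑ a, sg (s a) * X a i j)) := by
  classical
  have h1 : ∀ s : P → Bool, (∏ a, sg (s a)) *
      Matrix.det (Matrix.of fun i j => ∑ a, sg (s a) * X a i j) =
      ∑ π : Equiv.Perm P, ∑ b : P → P, (((∏ a, sg (s a)) * ∏ i, sg (s (b i))) *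
        (sn π * ∏ i, X (b i) (π i) i)) := by
    intro s
    rw [Matrix.det_apply', Finset.mul_sum]
    refine Finset.sum_congr rfl fun π _ => ?_
    simp only [Matrix.of_apply]
    rw [Fintype.prod_sum, Finset.mul_sum, Finset.mul_sum]
    refine Finset.sum_congr rfl fun b _ => ?_
    rw [Finset.prod_mul_distrib, sn]; ring
  simp only [h1, av_sum, av_mul_right, av_sg_prod]
  have h2 : ∀ π : Equiv.Perm P, ∑ b : P → P, (if Function.Bijective b then (1 : ℝ) else 0) *
        (sn π * ∏ i, X (b i) (π i) i) =
        ∑ β : Equiv.Perm P, sn π * ∏ i, X (β i) (π i) i := fun π =>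
    sum_bij_perm (fun b => sn π * ∏ i, X (b i) (π i) i)
  rw [Finset.sum_congr rfl fun π _ => h2 π]
  rw [Finset.sum_comm, MD, Finset.sum_comm, ← Equiv.sum_comp (Equiv.inv (Equiv.Perm P))]
  refine Finset.sum_congr rfl fun β _ => ?_
  rw [← Equiv.sum_comp (Equiv.mulRight β⁻¹)]
  refine Finset.sum_congr rfl fun π _ => ?_
  simp only [Equiv.inv_apply, Equiv.coe_mulRight]
  have h3 : ∏ a, X a ((π * β⁻¹) a) (β⁻¹ a) = ∏ i, X (β i) (π i) i := by
    rw [← Equiv.prod_comp β]
    simp
  rw [h3, sn_mul, mul_assoc (sn π), sn_mul_self, mul_one]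

end polar

section pairing

variable {T D : Type*} [Fintype T] [DecidableEq T] [Fintype D] [DecidableEq D]

/-- the double alternating sum of a `4`-tensor over pairings of `T × Bool` -/
noncomputable def Yf (C : T × Bool → T × Bool → T × Bool → T × Bool → ℝ) : ℝ :=
  ∑ π : Equiv.Perm (T × Bool), ∑ π' : Equiv.Perm (T × Bool), sn π * sn π' *
    ∏ b : T, C (π (b, false)) (π' (b, false)) (π (b, true)) (π' (b, true))

theorem av_sg_pair (p q : D → ℝ) :
    av (fun v : D → Bool => (∑ e, sg (v e) * p e) * ∑ e, sg (v e) * q e) = ∑ e, p e * q e := by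
  have h1 : ∀ v : D → Bool, (∑ e, sg (v e) * p e) * ∑ e, sg (v e) * q e =
      ∑ e, ∑ e', (sg (v e) * sg (v e')) * (p e * q e') := by
    intro v
    rw [Finset.sum_mul_sum]
    exact Finset.sum_congr rfl fun e _ => Finset.sum_congr rfl fun e' _ => by ring
  have h2 : ∀ e e' : D, av (fun v : D → Bool => sg (v e) * sg (v e')) = if e = e' then 1 else 0 := by
    intro e e'
    split_ifs with h
    · subst h; simp [av_const]
    · rw [av_resample e]
      have : ∀ (ω : D → Bool) (v : Bool), sg (Function.update ω e v e) *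
          sg (Function.update ω e v e') = sg v * sg (ω e') := by
        intro ω v
        rw [Function.update_self, Function.update_of_ne (Ne.symm h)]
      simp only [this, av_mul_right, av_sg, zero_mul, av_const]
  simp only [h1, av_sum, av_mul_right, h2]
  simp

/-- the random matrices -/
def XX (α β : D → ℝ) (S : D → T × Bool → T × Bool → ℝ) (ε : T → D → Bool)
    (a : T × Bool) (i j : T × Bool) : ℝ :=
  ∑ e, sg (ε a.1 e) * ((if a.2 then β e else α e) * S e i j)

theorem Yf_eq (α β : D → ℝ) (S : D → T × Bool → T × Bool → ℝ)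
    (C : T × Bool → T × Bool → T × Bool → T × Bool → ℝ)
    (hC : ∀ a b c d, C a b c d = ∑ e, α e * β e * (S e a b * S e c d)) :
    Yf C = av (fun ε : T → D → Bool => MD (XX α β S ε)) := by
  simp only [Yf, MD, av_sum, av_mul_left]
  refine Finset.sum_congr rfl fun π _ => Finset.sum_congr rfl fun π' _ => ?_
  congr 1
  have h1 : ∀ b : T, C (π (b, false)) (π' (b, false)) (π (b, true)) (π' (b, true)) =
      av (fun v : D → Bool => (∑ e, sg (v e) * (β e * S e (π (b, true)) (π' (b, true)))) *
        ∑ e, sg (v e) * (α e * S e (π (b, false)) (π' (b, false)))) := by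
    intro b
    rw [av_sg_pair, hC]
    exact Finset.sum_congr rfl fun e _ => by ring
  simp only [h1]
  rw [← av_prod_pi (ι := T) (Ω := D → Bool) (fun b v =>
    (∑ e, sg (v e) * (β e * S e (π (b, true)) (π' (b, true)))) *
        ∑ e, sg (v e) * (α e * S e (π (b, false)) (π' (b, false))))]
  congr 1
  ext ε
  rw [Fintype.prod_prod_type]
  simp only [Fintype.prod_bool, XX]
  simp

end pairing

end Pool.Agent.W666.GB
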