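import Pool.Agent.W666.GB.Sec

/-!
# Nearly constant negative curvature in all even dimensions
-/

set_option autoImplicit false

namespace Pool.Agent.W666.GB

open Finset

variable {V : Type*} [NormedAddCommGroup V] [InnerProductSpace ℝ V] {m : ℕ}

/-- `R` is close to the curvature tensor of constant curvature `-κ`, where `-κ` is the mean of the
sectional curvatures of `R` (first condition): either the Hilbert–Schmidt distances of `R` and of
its Ricci tensor to those of constant curvature `-κ` are at most `10⁻⁶ κ n` for `n = 2 m`, or all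
sectional curvatures of `R` lie in `[-(1 + ε) κ, -(1 - ε) κ]` for `ε = (3 / 4) 10⁻⁶ / √n`. -/
def Near (e : OrthonormalBasis (Fin m × Bool) ℝ V) (R : V → V → V → V → ℝ) (κ : ℝ) : Prop :=
  scal e R = -(κ * (2 * m * (2 * m - 1))) ∧
    ((devR e R κ ≤ (1 / 10 ^ 6 * κ * (2 * m)) ^ 2 ∧
      devRic e R κ ≤ (1 / 10 ^ 6 * κ * (2 * m)) ^ 2) ∨
    SecIn R (-((1 + 3 / 4 * (1 / 10 ^ 6) / Real.sqrt (2 * m)) * κ))
      (-((1 - 3 / 4 * (1 / 10 ^ 6) / Real.sqrt (2 * m)) * κ)))

theorem near_close (e : OrthonormalBasis (Fin m × Bool) ℝ V) {R : V → V → V → V → ℝ}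
    (hR : AlgCurv R) {κ : ℝ} (hκ : 0 < κ) (h : Near e R κ) :
    |(-1) ^ m * gbc e R - roundGB m κ| ≤ 1 / 5 * roundGB m κ := by
  obtain ⟨hsc, ⟨h4, h2⟩ | hs⟩ := h
  · exact gbc_close e hR hκ hsc h4 h2
  set η : ℝ := 3 / 4 * (1 / 10 ^ 6) / Real.sqrt (2 * m) * κ with hη
  have hη0 : 0 ≤ η := by positivity
  have hE := ET_curv hR κ
  have hsE : SecIn (ET R κ) (-η) η := by
    intro x y hx hy hxy
    have h3 := hs x y hx hy hxy
    have h4 : ET R κ x y x y = -R x y x y - κ := by
      simp only [ET]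
      rw [real_inner_self_eq_norm_sq, real_inner_self_eq_norm_sq, hxy, hx, hy]; ring
    rw [h4]
    constructor <;> nlinarith [h3.1, h3.2]
  have hall := hE.sec_all hη0 hsE
  have hcard : (Fintype.card (Fin m × Bool) : ℝ) = 2 * m := by
    rw [Fintype.card_prod, Fintype.card_fin, Fintype.card_bool]; push_cast; ring
  have hηsq : η ^ 2 * (2 * m) ≤ (3 / 4 * (1 / 10 ^ 6) * κ) ^ 2 := by
    rcases Nat.eq_zero_or_pos m with h0 | h0
    · subst h0
      simp only [Nat.cast_zero, mul_zero]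
      positivity
    have hm' : (0 : ℝ) < m := by exact_mod_cast h0
    have hq : Real.sqrt (2 * m) ^ 2 = 2 * m := Real.sq_sqrt (by positivity)
    rw [hη, mul_pow, div_pow, hq]
    apply le_of_eq
    field_simp
  have h4 : devR e R κ ≤ (1 / 10 ^ 6 * κ * (2 * m)) ^ 2 := by
    have h5 := hE.hs_bound hη0 hall e
    rw [hcard] at h5
    have h6 : devR e R κ = ∑ i, ∑ j, ∑ k, ∑ l, ET R κ (e i) (e j) (e k) (e l) ^ 2 := by
      simp only [← EE_eq, EE, neg_sq, devR]
    rw [h6]
    refine h5.trans ?_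
    have h7 : (2 * m : ℝ) ^ 3 * (4 / 3 * η) ^ 2 = 16 / 9 * (2 * m) ^ 2 * (η ^ 2 * (2 * m)) := by ring
    rw [h7]
    calc 16 / 9 * (2 * m : ℝ) ^ 2 * (η ^ 2 * (2 * m))
        ≤ 16 / 9 * (2 * m : ℝ) ^ 2 * (3 / 4 * (1 / 10 ^ 6) * κ) ^ 2 :=
          mul_le_mul_of_nonneg_left hηsq (by positivity)
      _ = _ := by ring
  have h5 : devRic e R κ ≤ (1 / 10 ^ 6 * κ * (2 * m)) ^ 2 := by
    have h5 := hE.ric_bound hη0 hall e
    rw [hcard] at h5
    have h6 : devRic e R κ = ∑ j, ∑ l, (∑ i, ET R κ (e i) (e j) (e i) (e l)) ^ 2 := by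
      have h7 : ∀ j l, ∑ i, ET R κ (e i) (e j) (e i) (e l) = ricc (EE e R κ) j l := by
        intro j l
        simp only [← EE_eq, ricc]
      simp only [h7, ricc_EE, neg_sq, devRic]
    rw [h6]
    refine h5.trans ?_
    have h7 : (2 * m : ℝ) ^ 3 * η ^ 2 = (2 * m) ^ 2 * (η ^ 2 * (2 * m)) := by ring
    rw [h7]
    calc (2 * m : ℝ) ^ 2 * (η ^ 2 * (2 * m))
        ≤ (2 * m : ℝ) ^ 2 * (3 / 4 * (1 / 10 ^ 6) * κ) ^ 2 :=
          mul_le_mul_of_nonneg_left hηsq (by positivity)
      _ ≤ _ := by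
          have : 0 ≤ (2 * m : ℝ) ^ 2 * κ ^ 2 := by positivity
          nlinarith
  exact gbc_close e hR hκ hsc h4 h5

theorem roundGB_pos {c : ℝ} (hc : 0 < c) : 0 < roundGB m c := by
  have hπ := Real.pi_pos
  unfold roundGB
  positivity

theorem near_pos (e : OrthonormalBasis (Fin m × Bool) ℝ V) {R : V → V → V → V → ℝ}
    (hR : AlgCurv R) {κ : ℝ} (hκ : 0 < κ) (h : Near e R κ) : 0 < (-1) ^ m * gbc e R := by
  have h1 := (abs_le.mp (near_close e hR hκ h)).1
  have h2 := roundGB_pos (m := m) hκ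
  linarith

/-- A field of algebraic curvature tensors in dimension `2 m`: at every point `p` of `M` a Euclidean
vector space `V p` of dimension `2 m` with an orthonormal basis and an algebraic curvature tensor
on it (for a Riemannian manifold: the tangent space and the curvature tensor at `p`). -/
structure CurvField (m : ℕ) (M : Type) where
  V : M → Type
  [ng : ∀ p, NormedAddCommGroup (V p)]
  [ip : ∀ p, InnerProductSpace ℝ (V p)]
  e : ∀ p, OrthonormalBasis (Fin m × Bool) ℝ (V p)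
  R : ∀ p, V p → V p → V p → V p → ℝ
  curv : ∀ p, AlgCurv (R p)

attribute [instance] CurvField.ng CurvField.ip

/-- the Gauss–Bonnet–Chern integrand of a field of curvature tensors -/
noncomputable def CurvField.gb {m : ℕ} {M : Type} (K : CurvField m M) (p : M) : ℝ :=
  gbc (K.e p) (K.R p)

end Pool.Agent.W666.GB
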