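import Pool.Agent.W666.GB.Step

/-!
# Many random sign vectors
-/

set_option autoImplicit false

namespace Pool.Agent.W666.GB

open Finset

variable {J : Type*} [Fintype J] [DecidableEq J] {P : Type*} [Fintype P] [DecidableEq P]

/-- weights: `s` on the basis vectors, `1` on the vectors with index in `A` -/
def cA (J : Type*) (s : ℝ) (A : Finset P) : J ⊕ P → ℝ :=
  Sum.elim (fun _ => s) (fun a => if a ∈ A then 1 else 0)

/-- the basis vectors followed by the vectors `X a` -/
def wA (X : P → J → ℝ) : J ⊕ P → J → ℝ := Sum.elim (fun i => Pi.single i 1) X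

theorem Sm_cA (s : ℝ) (A : Finset P) (X : P → J → ℝ) (f : (J → ℝ) → ℝ) :
    Sm (cA J s A) (wA X) f = s * ∑ i, f (Pi.single i 1) + ∑ a ∈ A, f (X a) := by
  simp [Sm, cA, wA, Finset.mul_sum]

omit [Fintype J] [DecidableEq J] [Fintype P] in
theorem cA_nonneg {s : ℝ} (hs : 0 ≤ s) (A : Finset P) (r : J ⊕ P) : 0 ≤ cA J s A r := by
  rcases r with r | r
  · exact hs
  · simp only [cA, Sum.elim_inr]; split_ifs <;> norm_num

variable {E : J → J → J → J → ℝ}

theorem multi_step (hE : Sym4 E) (hscal : ∑ i, ricc E i i = 0) (k : ℕ) (hk : 0 < k)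
    (A : Finset P) :
    av (fun ω : P → J → Bool =>
      Fh E (40 * k) (Sm (cA J (40 * k) A) (wA fun a => sv (ω a))) ^ k) ≤
    (5 / 2) ^ A.card * Fh E (40 * k) (fun f => (40 * k : ℝ) * ∑ i, f (Pi.single i 1)) ^ k := by
  induction A using Finset.induction_on with
  | empty =>
    have : ∀ X : P → J → ℝ, Sm (cA J (40 * k) (∅ : Finset P)) (wA X) =
        fun f => (40 * k : ℝ) * ∑ i, f (Pi.single i 1) := by
      intro X; ext f; rw [Sm_cA]; simp
    simp only [this, av_const, Finset.card_empty, pow_zero, one_mul, le_refl]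
  | insert a₀ A ha ih =>
    rw [Finset.card_insert_of_notMem ha]
    have e0 : ∀ Y : ℝ, (5 / 2 : ℝ) ^ (A.card + 1) * Y = 5 / 2 * ((5 / 2) ^ A.card * Y) :=
      fun Y => by ring
    rw [e0]
    refine le_trans ?_ (mul_le_mul_of_nonneg_left ih (by norm_num))
    rw [← av_mul_left, av_resample a₀]
    refine av_mono fun ω => ?_
    have h1 : ∀ v : J → Bool,
        Sm (cA J (40 * k) (insert a₀ A)) (wA fun a => sv (Function.update ω a₀ v a)) =
        fun f => f (sv v) + Sm (cA J (40 * k) A) (wA fun a => sv (ω a)) f := by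
      intro v
      ext f
      rw [Sm_cA, Sm_cA, Finset.sum_insert ha, Function.update_self]
      have : ∑ a ∈ A, f (sv (Function.update ω a₀ v a)) = ∑ a ∈ A, f (sv (ω a)) :=
        Finset.sum_congr rfl fun a haA => by
          rw [Function.update_of_ne (by rintro rfl; exact ha haA)]
      rw [this]; ring
    simp only [h1]
    refine one_step hE hscal (cA_nonneg (by positivity) A) k hk fun f hf => ?_
    rw [Sm_cA]
    have : 0 ≤ ∑ a ∈ A, f (sv (ω a)) := Finset.sum_nonneg fun a _ => hf _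
    linarith

/-- squared norm of the tensor pulled back along the family `X` -/
def nrm (E : J → J → J → J → ℝ) (X : P → J → ℝ) : ℝ :=
  ∑ a, ∑ b, ∑ c, ∑ d, ev E (X a) (X b) (X c) (X d) ^ 2

omit [DecidableEq J] [DecidableEq P] in
theorem nrm_nonneg (X : P → J → ℝ) : 0 ≤ nrm E X :=
  Finset.sum_nonneg fun _ _ => Finset.sum_nonneg fun _ _ => Finset.sum_nonneg fun _ _ =>
    Finset.sum_nonneg fun _ _ => sq_nonneg _

theorem nrm_le (k : ℕ) (X : P → J → ℝ) :
    nrm E X ≤ Fh E (40 * k) (Sm (cA J (40 * k) univ) (wA X)) := by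
  have hs : (0 : ℝ) ≤ 40 * k := by positivity
  have hS : ∀ f : (J → ℝ) → ℝ, (∀ x, 0 ≤ f x) →
      ∑ a, f (X a) ≤ Sm (cA J (40 * k) (univ : Finset P)) (wA X) f := by
    intro f hf
    rw [Sm_cA]
    have : 0 ≤ (40 * k : ℝ) * ∑ i, f (Pi.single i 1) :=
      mul_nonneg hs (Finset.sum_nonneg fun i _ => hf _)
    linarith
  have hc := cA_nonneg (J := J) hs (univ : Finset P)
  have h2 : 0 ≤ (40 * k : ℝ) * F2 (ricc E) (Sm (cA J (40 * k) univ) (wA X)) :=
    mul_nonneg hs (Sm_nonneg _ hc fun _ => Sm_nonneg _ hc fun _ => sq_nonneg _)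
  have h4 : nrm E X ≤ F4 E (Sm (cA J (40 * k) univ) (wA X)) := by
    unfold F4 nrm
    refine le_trans ?_ (hS _ fun _ => Sm_nonneg _ hc fun _ => Sm_nonneg _ hc fun _ =>
      Sm_nonneg _ hc fun _ => sq_nonneg _)
    refine Finset.sum_le_sum fun a _ => ?_
    refine le_trans ?_ (hS _ fun _ => Sm_nonneg _ hc fun _ => Sm_nonneg _ hc fun _ => sq_nonneg _)
    refine Finset.sum_le_sum fun b _ => ?_
    refine le_trans ?_ (hS _ fun _ => Sm_nonneg _ hc fun _ => sq_nonneg _)
    refine Finset.sum_le_sum fun c _ => ?_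
    exact hS _ fun _ => sq_nonneg _
  unfold Fh
  linarith

/-- **Moment bound** for a trace free curvature tensor on random sign vectors. -/
theorem nrm_moment (hE : Sym4 E) (hscal : ∑ i, ricc E i i = 0) (k : ℕ) (hk : 0 < k) :
    av (fun ω : P → J → Bool => nrm E (fun a => sv (ω a)) ^ k) ≤
      (5 / 2) ^ Fintype.card P * ((40 * k) ^ 4 * ∑ i, ∑ j, ∑ p, ∑ l, E i j p l ^ 2 +
        (40 * k) ^ 3 * ∑ i, ∑ j, ricc E i j ^ 2) ^ k := by
  have h1 := multi_step (P := P) hE hscal k hk univ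
  have h2 : Fh E (40 * k) (fun f => (40 * k : ℝ) * ∑ i, f (Pi.single i 1)) =
      (40 * k) ^ 4 * ∑ i, ∑ j, ∑ p, ∑ l, E i j p l ^ 2 + (40 * k) ^ 3 * ∑ i, ∑ j, ricc E i j ^ 2 := by
    simp only [Fh, F4, F2, ev, ev2, Pi.single_apply, ite_mul, one_mul, zero_mul, Finset.mem_univ,
      if_true, Finset.sum_ite_eq', ← Finset.mul_sum]
    ring
  rw [h2, Finset.card_univ] at h1
  refine le_trans (av_mono fun ω => ?_) h1
  exact pow_le_pow_left₀ (nrm_nonneg _) (nrm_le k _) k

end Pool.Agent.W666.GB
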