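import Pool.Agent.W666.GB.Comb
import Pool.Agent.W666.GB.Multi

/-!
# The double alternating form on random sign vectors
-/

set_option autoImplicit false

namespace Pool.Agent.W666.GB

open Finset

variable {T J : Type*} [Fintype T] [DecidableEq T] [Fintype J] [DecidableEq J]

/-- choices of four indices per block are pairs of maps on `T × Bool` -/
def quadEquiv (T J : Type*) : (T → J × J × J × J) ≃ (T × Bool → J) × (T × Bool → J) where
  toFun Q := (fun a => if a.2 then (Q a.1).2.2.1 else (Q a.1).1,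
    fun a => if a.2 then (Q a.1).2.2.2 else (Q a.1).2.1)
  invFun p := fun b => (p.1 (b, false), p.2 (b, false), p.1 (b, true), p.2 (b, true))
  left_inv Q := by ext b <;> simp
  right_inv p := by
    ext ⟨b, β⟩ <;> cases β <;> simp

omit [DecidableEq J] in
theorem prod_ev (C : J → J → J → J → ℝ) (x : T × Bool → J → ℝ) (π π' : T × Bool → T × Bool) :
    ∏ b : T, ev C (x (π (b, false))) (x (π' (b, false))) (x (π (b, true))) (x (π' (b, true))) =
    ∑ I : T × Bool → J, ∑ I' : T × Bool → J,
      ((∏ a, x (π a) (I a)) * ∏ a, x (π' a) (I' a)) *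
        ∏ b : T, C (I (b, false)) (I' (b, false)) (I (b, true)) (I' (b, true)) := by
  have h1 : ∀ y1 y2 y3 y4 : J → ℝ, ev C y1 y2 y3 y4 = ∑ q : J × J × J × J,
      y1 q.1 * y2 q.2.1 * y3 q.2.2.1 * y4 q.2.2.2 * C q.1 q.2.1 q.2.2.1 q.2.2.2 := by
    intro y1 y2 y3 y4
    rw [ev_eq]
    simp only [Fintype.sum_prod_type]
  simp only [h1]
  rw [Fintype.prod_sum]
  rw [← Fintype.sum_prod_type' (f := fun I I' : T × Bool → J =>
    ((∏ a, x (π a) (I a)) * ∏ a, x (π' a) (I' a)) *
        ∏ b : T, C (I (b, false)) (I' (b, false)) (I (b, true)) (I' (b, true)))]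
  rw [← (quadEquiv T J).sum_comp]
  refine Finset.sum_congr rfl fun Q _ => ?_
  rw [Fintype.prod_prod_type, Fintype.prod_prod_type, ← Finset.prod_mul_distrib,
    ← Finset.prod_mul_distrib]
  refine Finset.prod_congr rfl fun b _ => ?_
  simp only [Fintype.prod_bool, quadEquiv, Equiv.coe_fn_mk, if_true, Bool.false_eq_true, if_false]
  ring

theorem av_two (P : Type*) [Fintype P] [DecidableEq P] (π π' : Equiv.Perm P) (I I' : P → J) :
    av (fun ω : P → J → Bool => (∏ a, sv (ω (π a)) (I a)) * ∏ a, sv (ω (π' a)) (I' a)) =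
      if I ∘ π.symm = I' ∘ π'.symm then 1 else 0 := by
  have h1 : ∀ ω : P → J → Bool, (∏ a, sv (ω (π a)) (I a)) * ∏ a, sv (ω (π' a)) (I' a) =
      ∏ a, sg (ω a (I (π.symm a))) * sg (ω a (I' (π'.symm a))) := by
    intro ω
    rw [Finset.prod_mul_distrib]
    congr 1
    · rw [← Equiv.prod_comp π (fun a => sg (ω a (I (π.symm a))))]; simp [sv]
    · rw [← Equiv.prod_comp π' (fun a => sg (ω a (I' (π'.symm a))))]; simp [sv]
  simp only [h1]
  rw [av_prod_pi (ι := P) (Ω := J → Bool)
    (fun a v => sg (v (I (π.symm a))) * sg (v (I' (π'.symm a))))]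
  have h2 : ∀ e e' : J, av (fun v : J → Bool => sg (v e) * sg (v e')) = if e = e' then 1 else 0 := by
    intro e e'
    have := av_sg_pair (D := J) (Pi.single e 1) (Pi.single e' 1)
    simpa [Pi.single_apply, eq_comm] using this
  simp only [h2]
  split_ifs with h
  · refine Finset.prod_eq_one fun a _ => ?_
    rw [if_pos]
    exact congrFun h a
  · obtain ⟨a, ha⟩ := Function.ne_iff.mp h
    exact Finset.prod_eq_zero (Finset.mem_univ a) (if_neg ha)

/-- **Random sign vectors** compute the sum over all index maps. -/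
theorem av_Yf (C : J → J → J → J → ℝ) :
    av (fun ω : T × Bool → J → Bool =>
      Yf (fun a b c d => ev C (sv (ω a)) (sv (ω b)) (sv (ω c)) (sv (ω d)))) =
      ∑ i : T × Bool → J, Yf (pb C i) := by
  simp only [Yf]
  rw [Finset.sum_comm, av_sum]
  refine Finset.sum_congr rfl fun π _ => ?_
  rw [Finset.sum_comm, av_sum]
  refine Finset.sum_congr rfl fun π' _ => ?_
  rw [av_mul_left, ← Finset.mul_sum]
  congr 1
  have h1 : ∀ ω : T × Bool → J → Bool, ∏ b : T, ev C (sv (ω (π (b, false))))
      (sv (ω (π' (b, false)))) (sv (ω (π (b, true)))) (sv (ω (π' (b, true)))) =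
      ∑ I : T × Bool → J, ∑ I' : T × Bool → J,
      ((∏ a, sv (ω (π a)) (I a)) * ∏ a, sv (ω (π' a)) (I' a)) *
        ∏ b : T, C (I (b, false)) (I' (b, false)) (I (b, true)) (I' (b, true)) := fun ω =>
    prod_ev C (fun a => sv (ω a)) π π'
  simp only [h1, av_sum, av_mul_right, av_two]
  rw [← Equiv.sum_comp (Equiv.arrowCongr π.symm (Equiv.refl J))]
  refine Finset.sum_congr rfl fun i _ => ?_
  rw [Finset.sum_eq_single (i ∘ π')]
  · have : (Equiv.arrowCongr π.symm (Equiv.refl J)) i = i ∘ π := by ext; simp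
    rw [this, if_pos (by ext; simp), one_mul]
    rfl
  · intro I' _ hI'
    rw [if_neg, zero_mul]
    intro h
    apply hI'
    ext a
    have := congrFun h (π' a)
    simp at this
    simp [this]
  · intro h; exact absurd (Finset.mem_univ _) h

end Pool.Agent.W666.GB
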