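import Pool.Agent.W666.GB.Lift

/-!
# Sectional curvature pinching
-/

set_option autoImplicit false

namespace Pool.Agent.W666.GB

open Finset

variable {V : Type*} [NormedAddCommGroup V] [InnerProductSpace ℝ V] {S : V → V → V → V → ℝ}

namespace AlgCurv

theorem a34 (h : AlgCurv S) (x y z w : V) : S x y z w = -S x y w z := by
  rw [← h.pair x y z w, ← h.pair x y w z, h.anti w z]

theorem add2 (h : AlgCurv S) (x y y' z w : V) : S x (y + y') z w = S x y z w + S x y' z w := by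
  rw [h.anti (y + y') x, h.add, h.anti y x, h.anti y' x]; ring

theorem smul2 (h : AlgCurv S) (t : ℝ) (x y z w : V) : S x (t • y) z w = t * S x y z w := by
  rw [h.anti (t • y) x, h.smul, h.anti y x]; ring

theorem add3 (h : AlgCurv S) (x y z z' w : V) : S x y (z + z') w = S x y z w + S x y z' w := by
  rw [← h.pair x y (z + z') w, h.add, h.pair x y z w, h.pair x y z' w]

theorem smul3 (h : AlgCurv S) (t : ℝ) (x y z w : V) : S x y (t • z) w = t * S x y z w := by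
  rw [← h.pair, h.smul, h.pair]

theorem add4 (h : AlgCurv S) (x y z w w' : V) : S x y z (w + w') = S x y z w + S x y z w' := by
  rw [← h.pair x y z (w + w'), h.add2, h.pair x y z w, h.pair x y z w']

theorem smul4 (h : AlgCurv S) (t : ℝ) (x y z w : V) : S x y z (t • w) = t * S x y z w := by
  rw [← h.pair, h.smul2, h.pair]

theorem self12 (h : AlgCurv S) (x z w : V) : S x x z w = 0 := by
  have := h.anti x x z w; linarith

theorem self34 (h : AlgCurv S) (x y z : V) : S x y z z = 0 := by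
  have := h.a34 x y z z; linarith

theorem sub1 (h : AlgCurv S) (x x' y z w : V) : S (x - x') y z w = S x y z w - S x' y z w := by
  rw [sub_eq_add_neg, ← neg_one_smul ℝ x', h.add, h.smul]; ring

theorem sub2 (h : AlgCurv S) (x y y' z w : V) : S x (y - y') z w = S x y z w - S x y' z w := by
  rw [sub_eq_add_neg, ← neg_one_smul ℝ y', h.add2, h.smul2]; ring

theorem sub3 (h : AlgCurv S) (x y z z' w : V) : S x y (z - z') w = S x y z w - S x y z' w := by
  rw [sub_eq_add_neg, ← neg_one_smul ℝ z', h.add3, h.smul3]; ring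

theorem sub4 (h : AlgCurv S) (x y z w w' : V) : S x y z (w - w') = S x y z w - S x y z w' := by
  rw [sub_eq_add_neg, ← neg_one_smul ℝ w', h.add4, h.smul4]; ring

theorem sec_all (h : AlgCurv S) {η : ℝ} (hη : 0 ≤ η) (hs : SecIn S (-η) η) (x y : V) :
    |S x y x y| ≤ η * (‖x‖ ^ 2 * ‖y‖ ^ 2) := by
  by_cases hx : x = 0
  · have : S x y x y = 0 := by
      have h1 := h.smul 0 x y x y
      rw [zero_smul, zero_mul] at h1
      rw [hx] at h1 ⊢
      exact h1
    rw [this, abs_zero]; positivity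
  have hx0 : 0 < ‖x‖ := norm_pos_iff.mpr hx
  set c : ℝ := inner ℝ x y / ‖x‖ ^ 2 with hc
  set y' := y - c • x with hy'
  have hS : S x y x y = S x y' x y' := by
    simp only [hy', h.sub2, h.sub4, h.smul2, h.smul4, h.self12, h.self34]
    ring
  have horth : inner ℝ x y' = 0 := by
    rw [hy', inner_sub_right, inner_smul_right, real_inner_self_eq_norm_sq, hc]
    field_simp
    ring
  have hnorm : ‖y'‖ ^ 2 ≤ ‖y‖ ^ 2 := by
    have h2 : y = y' + c • x := by rw [hy']; abel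
    have h3 : ‖y‖ ^ 2 = ‖y'‖ ^ 2 + ‖c • x‖ ^ 2 := by
      rw [h2, norm_add_sq_real, inner_smul_right, real_inner_comm, horth]
      ring
    nlinarith [sq_nonneg ‖c • x‖]
  by_cases hy : y' = 0
  · have : S x y' x y' = 0 := by
      have h1 := h.smul2 0 x y' x y'
      rw [zero_smul, zero_mul] at h1
      rw [hy] at h1 ⊢
      exact h1
    rw [hS, this, abs_zero]; positivity
  have hy0 : 0 < ‖y'‖ := norm_pos_iff.mpr hy
  have h4 := hs (‖x‖⁻¹ • x) (‖y'‖⁻¹ • y') (by rw [norm_smul, norm_inv, norm_norm]; field_simp)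
    (by rw [norm_smul, norm_inv, norm_norm]; field_simp)
    (by rw [inner_smul_left, inner_smul_right, horth]; simp)
  rw [h.smul, h.smul2, h.smul3, h.smul4] at h4
  have h5 : S x y' x y' = (‖x‖ ^ 2 * ‖y'‖ ^ 2) *
      (‖x‖⁻¹ * (‖y'‖⁻¹ * (‖x‖⁻¹ * (‖y'‖⁻¹ * S x y' x y')))) := by field_simp
  rw [hS, h5, abs_mul, abs_of_nonneg (by positivity)]
  have h6 : |‖x‖⁻¹ * (‖y'‖⁻¹ * (‖x‖⁻¹ * (‖y'‖⁻¹ * S x y' x y')))| ≤ η := abs_le.mpr h4
  calc ‖x‖ ^ 2 * ‖y'‖ ^ 2 * |‖x‖⁻¹ * (‖y'‖⁻¹ * (‖x‖⁻¹ * (‖y'‖⁻¹ * S x y' x y')))|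
      ≤ ‖x‖ ^ 2 * ‖y'‖ ^ 2 * η := mul_le_mul_of_nonneg_left h6 (by positivity)
    _ ≤ ‖x‖ ^ 2 * ‖y‖ ^ 2 * η := by gcongr
    _ = _ := by ring

theorem pol1 (h : AlgCurv S) {η : ℝ}
    (hs : ∀ x y, |S x y x y| ≤ η * (‖x‖ ^ 2 * ‖y‖ ^ 2)) (x y w : V) (hy : ‖y‖ = 1)
    (hw : ‖w‖ = 1) : |S x y x w| ≤ η * ‖x‖ ^ 2 := by
  have h1 : 4 * S x y x w = S x (y + w) x (y + w) - S x (y - w) x (y - w) := by
    rw [h.add2, h.add4, h.add4, h.sub2, h.sub4, h.sub4, h.pair x y x w]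
    ring
  have h2 := hs x (y + w)
  have h3 := hs x (y - w)
  have h4 := parallelogram_law_with_norm ℝ y w
  rw [hy, hw] at h4
  rw [abs_le] at h2 h3 ⊢
  have h5 : ‖x‖ ^ 2 * ‖y + w‖ ^ 2 + ‖x‖ ^ 2 * ‖y - w‖ ^ 2 = 4 * ‖x‖ ^ 2 := by
    rw [← mul_add]; nlinarith
  have h6 : η * (‖x‖ ^ 2 * ‖y + w‖ ^ 2) + η * (‖x‖ ^ 2 * ‖y - w‖ ^ 2) = 4 * (η * ‖x‖ ^ 2) := by
    rw [← mul_add, h5]; ring
  constructor <;> linarith [h2.1, h2.2, h3.1, h3.2]

theorem pol2 (h : AlgCurv S) {η : ℝ} (hη : 0 ≤ η)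
    (hs : ∀ x y, |S x y x y| ≤ η * (‖x‖ ^ 2 * ‖y‖ ^ 2)) (x y z w : V) (hx : ‖x‖ = 1)
    (hy : ‖y‖ = 1) (hz : ‖z‖ = 1) (hw : ‖w‖ = 1) : |S x y z w + S z y x w| ≤ 2 * η := by
  have h1 : 2 * (S x y z w + S z y x w) = S (x + z) y (x + z) w - S (x - z) y (x - z) w := by
    rw [h.add, h.add3, h.add3, h.sub1, h.sub3, h.sub3]
    ring
  have h2 := h.pol1 hs (x + z) y w hy hw
  have h3 := h.pol1 hs (x - z) y w hy hw
  have h4 := parallelogram_law_with_norm ℝ x z
  rw [hx, hz] at h4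
  rw [abs_le] at h2 h3 ⊢
  have h6 : η * ‖x + z‖ ^ 2 + η * ‖x - z‖ ^ 2 = 4 * η := by
    rw [← mul_add]
    have : ‖x + z‖ ^ 2 + ‖x - z‖ ^ 2 = 4 := by nlinarith
    rw [this]; ring
  constructor <;> linarith [h2.1, h2.2, h3.1, h3.2]

theorem pol3 (h : AlgCurv S) {η : ℝ} (hη : 0 ≤ η)
    (hs : ∀ x y, |S x y x y| ≤ η * (‖x‖ ^ 2 * ‖y‖ ^ 2)) (x y z w : V) (hx : ‖x‖ = 1)
    (hy : ‖y‖ = 1) (hz : ‖z‖ = 1) (hw : ‖w‖ = 1) : |S x y z w| ≤ 4 / 3 * η := by
  have h1 := h.pol2 hη hs x y z w hx hy hz hw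
  have h2 := h.pol2 hη hs y x z w hy hx hz hw
  have hb := h.bianchi x y z w
  have e1 : S z y x w = -S y z x w := h.anti y z x w
  have e2 : S y x z w = -S x y z w := h.anti x y z w
  rw [abs_le] at h1 h2 ⊢
  constructor <;> linarith [h1.1, h1.2, h2.1, h2.2]

end AlgCurv

variable {ι : Type*} [Fintype ι]

theorem sum_sq_le (e : OrthonormalBasis ι ℝ V) (f : V →ₗ[ℝ] ℝ) {c : ℝ} (hc : 0 ≤ c)
    (hf : ∀ u : V, ‖u‖ = 1 → |f u| ≤ c) : ∑ k, f (e k) ^ 2 ≤ c ^ 2 := by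
  set z : V := ∑ k, f (e k) • e k with hz
  have h1 : f z = ∑ k, f (e k) ^ 2 := by
    rw [hz, map_sum]
    exact Finset.sum_congr rfl fun k _ => by rw [map_smul, smul_eq_mul, pow_two]
  have h2 : ‖z‖ ^ 2 = ∑ k, f (e k) ^ 2 := by
    rw [← real_inner_self_eq_norm_sq, hz, e.orthonormal.inner_sum]
    exact Finset.sum_congr rfl fun k _ => by simp [pow_two]
  by_cases hz0 : z = 0
  · rw [← h2, hz0, norm_zero, zero_pow two_ne_zero]; positivity
  have hzn : 0 < ‖z‖ := norm_pos_iff.mpr hz0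
  have h3 := hf (‖z‖⁻¹ • z) (by rw [norm_smul, norm_inv, norm_norm]; field_simp)
  rw [map_smul, smul_eq_mul, h1, ← h2] at h3
  have h4 : ‖z‖⁻¹ * ‖z‖ ^ 2 = ‖z‖ := by field_simp
  rw [h4, abs_of_pos hzn] at h3
  rw [← h2]
  exact pow_le_pow_left₀ hzn.le h3 2

namespace AlgCurv

/-- the linear functional in the third slot -/
def lin3 (h : AlgCurv S) (x y w : V) : V →ₗ[ℝ] ℝ where
  toFun z := S x y z w
  map_add' z z' := h.add3 x y z z' w
  map_smul' t z := h.smul3 t x y z w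

theorem hs_bound (h : AlgCurv S) {η : ℝ} (hη : 0 ≤ η)
    (hs : ∀ x y, |S x y x y| ≤ η * (‖x‖ ^ 2 * ‖y‖ ^ 2)) (e : OrthonormalBasis ι ℝ V) :
    ∑ i, ∑ j, ∑ k, ∑ l, S (e i) (e j) (e k) (e l) ^ 2 ≤
      (Fintype.card ι : ℝ) ^ 3 * (4 / 3 * η) ^ 2 := by
  have h1 : ∀ i j l, ∑ k, S (e i) (e j) (e k) (e l) ^ 2 ≤ (4 / 3 * η) ^ 2 := by
    intro i j l
    exact sum_sq_le e (h.lin3 (e i) (e j) (e l)) (by positivity) fun u hu =>
      h.pol3 hη hs (e i) (e j) u (e l) (by simp) (by simp) hu (by simp)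
  calc ∑ i, ∑ j, ∑ k, ∑ l, S (e i) (e j) (e k) (e l) ^ 2
      = ∑ i, ∑ j, ∑ l, ∑ k, S (e i) (e j) (e k) (e l) ^ 2 :=
        Finset.sum_congr rfl fun i _ => Finset.sum_congr rfl fun j _ => Finset.sum_comm
    _ ≤ ∑ _i : ι, ∑ _j : ι, ∑ _l : ι, (4 / 3 * η) ^ 2 :=
        Finset.sum_le_sum fun i _ => Finset.sum_le_sum fun j _ => Finset.sum_le_sum fun l _ =>
          h1 i j l
    _ = _ := by
        simp only [Finset.sum_const, Finset.card_univ, nsmul_eq_mul]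
        ring

theorem ric_bound (h : AlgCurv S) {η : ℝ} (hη : 0 ≤ η)
    (hs : ∀ x y, |S x y x y| ≤ η * (‖x‖ ^ 2 * ‖y‖ ^ 2)) (e : OrthonormalBasis ι ℝ V) :
    ∑ j, ∑ l, (∑ i, S (e i) (e j) (e i) (e l)) ^ 2 ≤ (Fintype.card ι : ℝ) ^ 3 * η ^ 2 := by
  have h0 : ∀ y, |∑ i, S (e i) y (e i) y| ≤ (Fintype.card ι : ℝ) * (η * ‖y‖ ^ 2) := by
    intro y
    refine (Finset.abs_sum_le_sum_abs _ _).trans ?_
    calc ∑ i, |S (e i) y (e i) y| ≤ ∑ _i : ι, η * ‖y‖ ^ 2 :=
          Finset.sum_le_sum fun i _ => by simpa using hs (e i) y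
      _ = _ := by simp only [Finset.sum_const, Finset.card_univ, nsmul_eq_mul]
  have h1 : ∀ y w, ‖y‖ = 1 → ‖w‖ = 1 → |∑ i, S (e i) y (e i) w| ≤ (Fintype.card ι : ℝ) * η := by
    intro y w hy hw
    have e1 : 4 * ∑ i, S (e i) y (e i) w = ∑ i, S (e i) (y + w) (e i) (y + w) -
        ∑ i, S (e i) (y - w) (e i) (y - w) := by
      rw [Finset.mul_sum, ← Finset.sum_sub_distrib]
      refine Finset.sum_congr rfl fun i _ => ?_
      rw [h.add2, h.add4, h.add4, h.sub2, h.sub4, h.sub4, h.pair (e i) y (e i) w]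
      ring
    have h2 := h0 (y + w)
    have h3 := h0 (y - w)
    have h4 := parallelogram_law_with_norm ℝ y w
    rw [hy, hw] at h4
    rw [abs_le] at h2 h3 ⊢
    have h6 : (Fintype.card ι : ℝ) * (η * ‖y + w‖ ^ 2) + (Fintype.card ι : ℝ) * (η * ‖y - w‖ ^ 2) =
        4 * ((Fintype.card ι : ℝ) * η) := by
      have : ‖y + w‖ ^ 2 + ‖y - w‖ ^ 2 = 4 := by nlinarith
      rw [← mul_add, ← mul_add, this]; ring
    constructor <;> linarith [h2.1, h2.2, h3.1, h3.2]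
  have h2 : ∀ j, ∑ l, (∑ i, S (e i) (e j) (e i) (e l)) ^ 2 ≤ ((Fintype.card ι : ℝ) * η) ^ 2 := by
    intro j
    let f : V →ₗ[ℝ] ℝ :=
      { toFun := fun w => ∑ i, S (e i) (e j) (e i) w
        map_add' := fun w w' => by
          rw [← Finset.sum_add_distrib]
          exact Finset.sum_congr rfl fun i _ => h.add4 _ _ _ _ _
        map_smul' := fun t w => by
          rw [RingHom.id_apply, smul_eq_mul, Finset.mul_sum]
          exact Finset.sum_congr rfl fun i _ => h.smul4 _ _ _ _ _ }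
    exact sum_sq_le e f (by positivity) fun u hu => h1 (e j) u (by simp) hu
  calc ∑ j, ∑ l, (∑ i, S (e i) (e j) (e i) (e l)) ^ 2 ≤
        ∑ _j : ι, ((Fintype.card ι : ℝ) * η) ^ 2 := Finset.sum_le_sum fun j _ => h2 j
    _ = _ := by
        simp only [Finset.sum_const, Finset.card_univ, nsmul_eq_mul]
        ring

end AlgCurv

section pinched

variable {m : ℕ} (e : OrthonormalBasis (Fin m × Bool) ℝ V) {R : V → V → V → V → ℝ}

/-- `-R` minus the tensor of constant curvature `κ` -/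
noncomputable def ET (R : V → V → V → V → ℝ) (κ : ℝ) (x y z w : V) : ℝ :=
  -R x y z w - κ * (inner ℝ x z * inner ℝ y w - inner ℝ x w * inner ℝ y z)

theorem ET_curv (hR : AlgCurv R) (κ : ℝ) : AlgCurv (ET R κ) where
  add x x' y z w := by
    simp only [ET, hR.add, inner_add_left]; ring
  smul t x y z w := by
    simp only [ET, hR.smul, inner_smul_left, conj_trivial]; ring
  anti x y z w := by
    simp only [ET]; rw [hR.anti x y]; ring
  pair x y z w := by
    simp only [ET]; rw [hR.pair x y z w, real_inner_comm x z, real_inner_comm w y,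
      real_inner_comm y z, real_inner_comm x w]; ring
  bianchi x y z w := by
    have := hR.bianchi x y z w
    simp only [ET]
    rw [real_inner_comm x z, real_inner_comm x y, real_inner_comm y z]
    linear_combination -this

theorem inner_e (i j : Fin m × Bool) : inner ℝ (e i) (e j) = if i = j then (1 : ℝ) else 0 :=
  orthonormal_iff_ite.mp e.orthonormal i j

theorem EE_eq (κ : ℝ) (i j k l : Fin m × Bool) :
    EE e R κ i j k l = ET R κ (e i) (e j) (e k) (e l) := by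
  simp only [EE, ET, unitCurv, inner_e]; ring

theorem sec_bounds (hm : 0 < m) (hR : AlgCurv R) {a b : ℝ} (hs : SecIn R (-b) (-a)) :
    a ≤ -scal e R / (2 * m * (2 * m - 1)) ∧ -scal e R / (2 * m * (2 * m - 1)) ≤ b := by
  have hm1 : (1 : ℝ) ≤ m := by exact_mod_cast hm
  have hpos : (0 : ℝ) < 2 * m * (2 * m - 1) := by nlinarith
  have hcount : ∀ c : ℝ, ∑ i : Fin m × Bool, ∑ j : Fin m × Bool, (if i = j then 0 else c) =
      c * (2 * m * (2 * m - 1)) := by
    intro c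
    have h1 : ∀ i : Fin m × Bool, ∑ j : Fin m × Bool, (if i = j then 0 else c) =
        c * (2 * m - 1) := by
      intro i
      have h2 : ∀ j : Fin m × Bool, (if i = j then 0 else c) = c - (if i = j then c else 0) := by
        intro j; split_ifs <;> ring
      simp only [h2, Finset.sum_sub_distrib, Finset.sum_const, Finset.card_univ,
        Fintype.card_prod, Fintype.card_fin, Fintype.card_bool, nsmul_eq_mul,
        Finset.sum_ite_eq, Finset.mem_univ, if_true]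
      push_cast; ring
    simp only [h1, Finset.sum_const, Finset.card_univ, Fintype.card_prod, Fintype.card_fin,
      Fintype.card_bool, nsmul_eq_mul]
    push_cast; ring
  have hterm : ∀ i j : Fin m × Bool, (if i = j then 0 else -b) ≤ R (e i) (e j) (e i) (e j) ∧
      R (e i) (e j) (e i) (e j) ≤ (if i = j then 0 else -a) := by
    intro i j
    split_ifs with h
    · subst h; rw [hR.self12]; exact ⟨le_rfl, le_rfl⟩
    · exact hs (e i) (e j) (by simp) (by simp) (by rw [inner_e, if_neg h])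
  have h1 : -b * (2 * m * (2 * m - 1)) ≤ scal e R := by
    rw [← hcount (-b)]
    exact Finset.sum_le_sum fun i _ => Finset.sum_le_sum fun j _ => (hterm i j).1
  have h2 : scal e R ≤ -a * (2 * m * (2 * m - 1)) := by
    rw [← hcount (-a)]
    exact Finset.sum_le_sum fun i _ => Finset.sum_le_sum fun j _ => (hterm i j).2
  rw [le_div_iff₀ hpos, div_le_iff₀ hpos]
  constructor <;> linarith

theorem sec_pinched (hm : 0 < m) (hR : AlgCurv R) {a b : ℝ} (ha : 0 < a)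
    (hs : SecIn R (-b) (-a)) (hab : b - a ≤ 3 / 4 * (1 / 10 ^ 6) * a / Real.sqrt (2 * m)) :
    4 / 5 * roundGB m a ≤ (-1) ^ m * gbc e R := by
  have hm1 : (1 : ℝ) ≤ m := by exact_mod_cast hm
  have hpos : (0 : ℝ) < 2 * m * (2 * m - 1) := by nlinarith
  obtain ⟨h1, h2⟩ := sec_bounds e hm hR hs
  set κ : ℝ := -scal e R / (2 * m * (2 * m - 1)) with hκ
  have hκ0 : 0 < κ := lt_of_lt_of_le ha h1
  set η : ℝ := b - a with hη
  have hη0 : 0 ≤ η := by rw [hη]; linarith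
  have hsc : scal e R = -(κ * (2 * m * (2 * m - 1))) := by
    rw [hκ, div_mul_cancel₀ _ hpos.ne', neg_neg]
  have hE := ET_curv hR κ
  have hsE : SecIn (ET R κ) (-η) η := by
    intro x y hx hy hxy
    have h3 := hs x y hx hy hxy
    have h4 : ET R κ x y x y = -R x y x y - κ := by
      simp only [ET]
      rw [real_inner_self_eq_norm_sq, real_inner_self_eq_norm_sq, hxy, hx, hy]; ring
    rw [h4]
    constructor <;> linarith [h3.1, h3.2]
  have hall := hE.sec_all hη0 hsE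
  have hcard : (Fintype.card (Fin m × Bool) : ℝ) = 2 * m := by
    rw [Fintype.card_prod, Fintype.card_fin, Fintype.card_bool]; push_cast; ring
  have hq0 : 0 < Real.sqrt (2 * m) := Real.sqrt_pos.mpr (by positivity)
  have hq : Real.sqrt (2 * m) ^ 2 = 2 * m := Real.sq_sqrt (by positivity)
  have hηsq : η ^ 2 * (2 * m) ≤ (3 / 4 * (1 / 10 ^ 6) * a) ^ 2 := by
    rw [le_div_iff₀ hq0] at hab
    have := pow_le_pow_left₀ (by positivity) hab 2
    rwa [mul_pow, hq] at this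
  have hak : a ^ 2 ≤ κ ^ 2 := pow_le_pow_left₀ ha.le h1 2
  have h4 : devR e R κ ≤ (1 / 10 ^ 6 * κ * (2 * m)) ^ 2 := by
    have h5 := hE.hs_bound hη0 hall e
    rw [hcard] at h5
    have h6 : devR e R κ = ∑ i, ∑ j, ∑ k, ∑ l, ET R κ (e i) (e j) (e k) (e l) ^ 2 := by
      simp only [← EE_eq, EE, neg_sq, devR]
    rw [h6]
    refine h5.trans ?_
    have h7 : (2 * m : ℝ) ^ 3 * (4 / 3 * η) ^ 2 = 16 / 9 * (2 * m) ^ 2 * (η ^ 2 * (2 * m)) := by ring
    rw [h7]
    calc 16 / 9 * (2 * m : ℝ) ^ 2 * (η ^ 2 * (2 * m))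
        ≤ 16 / 9 * (2 * m : ℝ) ^ 2 * (3 / 4 * (1 / 10 ^ 6) * a) ^ 2 :=
          mul_le_mul_of_nonneg_left hηsq (by positivity)
      _ = (1 / 10 ^ 6 * (2 * m : ℝ)) ^ 2 * a ^ 2 := by ring
      _ ≤ (1 / 10 ^ 6 * (2 * m : ℝ)) ^ 2 * κ ^ 2 := mul_le_mul_of_nonneg_left hak (by positivity)
      _ = _ := by ring
  have h5 : devRic e R κ ≤ (1 / 10 ^ 6 * κ * (2 * m)) ^ 2 := by
    have h5 := hE.ric_bound hη0 hall e
    rw [hcard] at h5
    have h6 : devRic e R κ = ∑ j, ∑ l, (∑ i, ET R κ (e i) (e j) (e i) (e l)) ^ 2 := by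
      have h7 : ∀ j l, ∑ i, ET R κ (e i) (e j) (e i) (e l) = ricc (EE e R κ) j l := by
        intro j l
        simp only [← EE_eq, ricc]
      simp only [h7, ricc_EE, neg_sq, devRic]
    rw [h6]
    refine h5.trans ?_
    have h7 : (2 * m : ℝ) ^ 3 * η ^ 2 = (2 * m) ^ 2 * (η ^ 2 * (2 * m)) := by ring
    rw [h7]
    calc (2 * m : ℝ) ^ 2 * (η ^ 2 * (2 * m))
        ≤ (2 * m : ℝ) ^ 2 * (3 / 4 * (1 / 10 ^ 6) * a) ^ 2 :=
          mul_le_mul_of_nonneg_left hηsq (by positivity)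
      _ ≤ (1 / 10 ^ 6 * (2 * m : ℝ)) ^ 2 * a ^ 2 := by
          have : 0 ≤ (2 * m : ℝ) ^ 2 * a ^ 2 := by positivity
          nlinarith
      _ ≤ (1 / 10 ^ 6 * (2 * m : ℝ)) ^ 2 * κ ^ 2 := mul_le_mul_of_nonneg_left hak (by positivity)
      _ = _ := by ring
  have h6 := gbc_close e hR hκ0 hsc h4 h5
  have h7 : roundGB m a ≤ roundGB m κ := by
    unfold roundGB
    have hπ := Real.pi_pos
    exact mul_le_mul_of_nonneg_left (pow_le_pow_left₀ ha.le h1 m) (by positivity)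
  have h8 := (abs_le.mp h6).1
  linarith

end pinched

end Pool.Agent.W666.GB
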