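import Pool.Agent.W666.GB.Hyper

/-!
# Moments of a curvature tensor restricted to random sign vectors
-/

set_option autoImplicit false

namespace Pool.Agent.W666.GB

open Finset

variable {J : Type*} [Fintype J] [DecidableEq J]

/-- evaluation of a `4`-tensor on four vectors -/
def ev (E : J → J → J → J → ℝ) (w1 w2 w3 w4 : J → ℝ) : ℝ :=
  ∑ i, w1 i * ∑ j, w2 j * ∑ k, w3 k * ∑ l, w4 l * E i j k l

/-- evaluation of a `2`-tensor on two vectors -/
def ev2 (B : J → J → ℝ) (w1 w2 : J → ℝ) : ℝ := ∑ i, w1 i * ∑ j, w2 j * B i j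

/-- Ricci contraction -/
def ricc (E : J → J → J → J → ℝ) (j l : J) : ℝ := ∑ i, E i j i l

/-- The symmetries of a curvature tensor which are used for the moment bounds -/
structure Sym4 (E : J → J → J → J → ℝ) : Prop where
  a12 : ∀ i j k l, E i j k l = -E j i k l
  a34 : ∀ i j k l, E i j k l = -E i j l k
  pair : ∀ i j k l, E i j k l = E k l i j

variable {E : J → J → J → J → ℝ}

omit [DecidableEq J] in
theorem ev_eq (w1 w2 w3 w4 : J → ℝ) :
    ev E w1 w2 w3 w4 = ∑ i, ∑ j, ∑ k, ∑ l, w1 i * w2 j * w3 k * w4 l * E i j k l := by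
  simp only [ev, Finset.mul_sum, mul_assoc]

omit [DecidableEq J] in
theorem ev_a12 (hE : Sym4 E) (w1 w2 w3 w4 : J → ℝ) :
    ev E w1 w2 w3 w4 = -ev E w2 w1 w3 w4 := by
  rw [ev_eq, ev_eq, Finset.sum_comm, ← Finset.sum_neg_distrib]
  refine Finset.sum_congr rfl fun i _ => ?_
  rw [← Finset.sum_neg_distrib]
  refine Finset.sum_congr rfl fun j _ => ?_
  rw [← Finset.sum_neg_distrib]
  refine Finset.sum_congr rfl fun k _ => ?_
  rw [← Finset.sum_neg_distrib]
  refine Finset.sum_congr rfl fun l _ => ?_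
  rw [hE.a12 j i]; ring

omit [DecidableEq J] in
theorem ev_a34 (hE : Sym4 E) (w1 w2 w3 w4 : J → ℝ) :
    ev E w1 w2 w3 w4 = -ev E w1 w2 w4 w3 := by
  rw [ev_eq, ev_eq, ← Finset.sum_neg_distrib]
  refine Finset.sum_congr rfl fun i _ => ?_
  rw [← Finset.sum_neg_distrib]
  refine Finset.sum_congr rfl fun j _ => ?_
  rw [Finset.sum_comm, ← Finset.sum_neg_distrib]
  refine Finset.sum_congr rfl fun k _ => ?_
  rw [← Finset.sum_neg_distrib]
  refine Finset.sum_congr rfl fun l _ => ?_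
  rw [hE.a34 i j l k]; ring

omit [DecidableEq J] in
theorem ev_pair (hE : Sym4 E) (w1 w2 w3 w4 : J → ℝ) :
    ev E w1 w2 w3 w4 = ev E w3 w4 w1 w2 := by
  rw [ev_eq, ev_eq]
  have h1 : ∀ f : J → J → J → J → ℝ, ∑ i, ∑ j, ∑ k, ∑ l, f i j k l = ∑ k, ∑ l, ∑ i, ∑ j, f i j k l := by
    intro f
    have := Finset.sum_comm (s := (Finset.univ : Finset (J × J))) (t := (Finset.univ : Finset (J × J)))
      (f := fun p q => f p.1 p.2 q.1 q.2)
    simpa only [Fintype.sum_prod_type] using this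
  rw [h1]
  refine Finset.sum_congr rfl fun k _ => Finset.sum_congr rfl fun l _ =>
    Finset.sum_congr rfl fun i _ => Finset.sum_congr rfl fun j _ => ?_
  rw [hE.pair i j k l]; ring

omit [DecidableEq J] in
theorem ev_self12 (hE : Sym4 E) (x w3 w4 : J → ℝ) : ev E x x w3 w4 = 0 := by
  have := ev_a12 hE x x w3 w4; linarith

omit [DecidableEq J] in
theorem ev_self34 (hE : Sym4 E) (x w1 w2 : J → ℝ) : ev E w1 w2 x x = 0 := by
  have := ev_a34 hE w1 w2 x x; linarith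

theorem ev_lin1 (w1 w2 w3 w4 : J → ℝ) :
    ev E w1 w2 w3 w4 = ∑ i, w1 i * ev E (Pi.single i 1) w2 w3 w4 := by
  simp [ev, Pi.single_apply]

theorem ev_lin3 (hE : Sym4 E) (w1 w2 w3 w4 : J → ℝ) :
    ev E w1 w2 w3 w4 = ∑ k, w3 k * ev E w1 w2 (Pi.single k 1) w4 := by
  rw [ev_pair hE, ev_lin1]
  exact Finset.sum_congr rfl fun k _ => by rw [ev_pair hE]

theorem ev_trace (w2 w4 : J → ℝ) :
    ∑ i, ev E (Pi.single i 1) w2 (Pi.single i 1) w4 = ev2 (ricc E) w2 w4 := by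
  simp only [ev, ev2, ricc, Pi.single_apply, ite_mul, one_mul, zero_mul,
    Finset.mem_univ, if_true, Finset.sum_ite_eq']
  rw [Finset.sum_comm]
  refine Finset.sum_congr rfl fun j _ => ?_
  rw [← Finset.mul_sum, Finset.sum_comm]
  congr 1
  refine Finset.sum_congr rfl fun l _ => ?_
  rw [Finset.mul_sum]

theorem ev2_lin1 (B : J → J → ℝ) (w1 w2 : J → ℝ) :
    ev2 B w1 w2 = ∑ i, w1 i * ev2 B (Pi.single i 1) w2 := by
  simp [ev2, Pi.single_apply]

omit [DecidableEq J] in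
theorem ev2_symm {B : J → J → ℝ} (hB : ∀ i j, B i j = B j i) (w1 w2 : J → ℝ) :
    ev2 B w1 w2 = ev2 B w2 w1 := by
  simp only [ev2, Finset.mul_sum]
  rw [Finset.sum_comm]
  exact Finset.sum_congr rfl fun i _ => Finset.sum_congr rfl fun j _ => by rw [hB j i]; ring

theorem ev2_trace (B : J → J → ℝ) :
    ∑ i, ev2 B (Pi.single i 1) (Pi.single i 1) = ∑ i, B i i := by
  simp [ev2, Pi.single_apply]

omit [DecidableEq J] in
theorem ricc_symm (hE : Sym4 E) (i j : J) : ricc E i j = ricc E j i := by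
  simp only [ricc]
  exact Finset.sum_congr rfl fun k _ => hE.pair _ _ _ _

/-- finite weighted sums of values -/
def Sm {R : Type*} [Fintype R] (c : R → ℝ) (w : R → J → ℝ) (f : (J → ℝ) → ℝ) : ℝ :=
  ∑ r, c r * f (w r)

section Sm

variable {R : Type*} [Fintype R] (c : R → ℝ) (w : R → J → ℝ)

omit [Fintype J] [DecidableEq J] in
theorem Sm_add (f g : (J → ℝ) → ℝ) : Sm c w (fun x => f x + g x) = Sm c w f + Sm c w g := by
  simp only [Sm, mul_add, Finset.sum_add_distrib]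

omit [Fintype J] [DecidableEq J] in
theorem Sm_mul_left (a : ℝ) (g : (J → ℝ) → ℝ) : Sm c w (fun x => a * g x) = a * Sm c w g := by
  simp only [Sm, Finset.mul_sum]
  exact Finset.sum_congr rfl fun r _ => by ring

omit [Fintype J] [DecidableEq J] in
theorem Sm_sum {κ : Type*} (s : Finset κ) (g : κ → (J → ℝ) → ℝ) :
    Sm c w (fun x => ∑ i ∈ s, g i x) = ∑ i ∈ s, Sm c w (g i) := by
  simp only [Sm, Finset.mul_sum]
  rw [Finset.sum_comm]

omit [Fintype J] [DecidableEq J] in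
theorem Sm_comm (f : (J → ℝ) → (J → ℝ) → ℝ) :
    Sm c w (fun x => Sm c w (fun y => f x y)) = Sm c w (fun y => Sm c w (fun x => f x y)) := by
  simp only [Sm, Finset.mul_sum]
  rw [Finset.sum_comm]
  exact Finset.sum_congr rfl fun r _ => Finset.sum_congr rfl fun r' _ => by ring

variable {c}

omit [Fintype J] [DecidableEq J] in
theorem Sm_mono (hc : ∀ r, 0 ≤ c r) {f g : (J → ℝ) → ℝ} (h : ∀ x, f x ≤ g x) :
    Sm c w f ≤ Sm c w g :=
  Finset.sum_le_sum fun r _ => mul_le_mul_of_nonneg_left (h _) (hc r)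

omit [Fintype J] [DecidableEq J] in
theorem Sm_nonneg (hc : ∀ r, 0 ≤ c r) {f : (J → ℝ) → ℝ} (h : ∀ x, 0 ≤ f x) : 0 ≤ Sm c w f :=
  Finset.sum_nonneg fun r _ => mul_nonneg (hc r) (h _)

omit [Fintype J] [DecidableEq J] in
theorem Sm_Bd {Ω : Type*} [Fintype Ω] [Nonempty Ω] {j : ℕ} (hc : ∀ r, 0 ≤ c r)
    {h : Ω → (J → ℝ) → ℝ} {C : (J → ℝ) → ℝ} (hb : ∀ x, Bd j (fun ω => h ω x) (C x)) :
    Bd j (fun ω => Sm c w (h ω)) (Sm c w C) :=
  Bd.sum _ fun r _ => (hb (w r)).smul (hc r)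

end Sm

/-- the quartic part of the potential -/
def F4 (E : J → J → J → J → ℝ) (S : ((J → ℝ) → ℝ) → ℝ) : ℝ :=
  S fun w1 => S fun w2 => S fun w3 => S fun w4 => ev E w1 w2 w3 w4 ^ 2

/-- the Ricci part of the potential -/
def F2 (B : J → J → ℝ) (S : ((J → ℝ) → ℝ) → ℝ) : ℝ :=
  S fun w1 => S fun w2 => ev2 B w1 w2 ^ 2

section expand

variable {R : Type*} [Fintype R] (c : R → ℝ) (w : R → J → ℝ)

/-- one new slot -/
def Ph (E : J → J → J → J → ℝ) (x : J → ℝ) : ℝ :=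
  Sm c w fun w2 => Sm c w fun w3 => Sm c w fun w4 => ev E x w2 w3 w4 ^ 2

/-- two new slots -/
def Ks (E : J → J → J → J → ℝ) (x : J → ℝ) : ℝ :=
  Sm c w fun w2 => Sm c w fun w4 => ev E x w2 x w4 ^ 2

/-- one new slot, Ricci part -/
def Ph2 (B : J → J → ℝ) (x : J → ℝ) : ℝ := Sm c w fun w2 => ev2 B x w2 ^ 2

omit [DecidableEq J] in
theorem F4_expand (hE : Sym4 E) (x : J → ℝ) :
    F4 E (fun f => f x + Sm c w f) = F4 E (Sm c w) + 4 * Ph c w E x + 4 * Ks c w E x := by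
  have z1 : ∀ a b, ev E x x a b = 0 := fun a b => ev_self12 hE x a b
  have z2 : ∀ a b, ev E a b x x = 0 := fun a b => ev_self34 hE x a b
  simp only [F4, Sm_add, z1, z2]
  have s0' : Sm c w (fun _ => (0 : ℝ)) = 0 := by simp [Sm]
  simp only [s0', zero_pow two_ne_zero, zero_add, add_zero]
  have e2 : Sm c w (fun w1 => Sm c w fun w3 => Sm c w fun w4 => ev E w1 x w3 w4 ^ 2) =
      Ph c w E x := by
    have : ∀ a b d, ev E a x b d ^ 2 = ev E x a b d ^ 2 := fun a b d => by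
      rw [ev_a12 hE, neg_sq]
    simp only [this, Ph]
  have hrot : ∀ g : (J → ℝ) → (J → ℝ) → (J → ℝ) → ℝ,
      Sm c w (fun w1 => Sm c w fun w2 => Sm c w fun w4 => g w4 w1 w2) =
      Sm c w (fun w1 => Sm c w fun w2 => Sm c w fun w4 => g w1 w2 w4) := by
    intro g
    rw [Sm_comm c w (fun w1 w2 => Sm c w fun w4 => g w1 w2 w4)]
    have h1 : ∀ w2, Sm c w (fun w1 => Sm c w fun w4 => g w1 w2 w4) =
        Sm c w (fun w4 => Sm c w fun w1 => g w1 w2 w4) := fun w2 => Sm_comm c w _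
    simp only [h1]
  have e3 : Sm c w (fun w1 => Sm c w fun w2 => Sm c w fun w4 => ev E w1 w2 x w4 ^ 2) =
      Ph c w E x := by
    have : ∀ a b d, ev E a b x d ^ 2 = ev E x d a b ^ 2 := fun a b d => by rw [ev_pair hE]
    simp only [this, Ph]
    exact hrot (fun a b d => ev E x a b d ^ 2)
  have e4 : Sm c w (fun w1 => Sm c w fun w2 => Sm c w fun w3 => ev E w1 w2 w3 x ^ 2) =
      Ph c w E x := by
    have : ∀ a b d, ev E a b d x ^ 2 = ev E x d a b ^ 2 := fun a b d => by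
      rw [ev_pair hE, ev_a12 hE, neg_sq]
    simp only [this, Ph]
    exact hrot (fun a b d => ev E x a b d ^ 2)
  have k14 : Sm c w (fun w2 => Sm c w fun w3 => ev E x w2 w3 x ^ 2) = Ks c w E x := by
    have : ∀ a b, ev E x a b x ^ 2 = ev E x a x b ^ 2 := fun a b => by
      rw [ev_a34 hE, neg_sq]
    simp only [this, Ks]
  have k23 : Sm c w (fun w1 => Sm c w fun w4 => ev E w1 x x w4 ^ 2) = Ks c w E x := by
    have : ∀ a b, ev E a x x b ^ 2 = ev E x a x b ^ 2 := fun a b => by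
      rw [ev_a12 hE, neg_sq]
    simp only [this, Ks]
  have k24 : Sm c w (fun w1 => Sm c w fun w3 => ev E w1 x w3 x ^ 2) = Ks c w E x := by
    have : ∀ a b, ev E a x b x ^ 2 = ev E x a x b ^ 2 := fun a b => by
      rw [ev_a12 hE, ev_a34 hE, neg_neg]
    simp only [this, Ks]
  have h1 : Sm c w (fun w2 => Sm c w fun w3 => Sm c w fun w4 => ev E x w2 w3 w4 ^ 2) =
    Ph c w E x := rfl
  have k13 : Sm c w (fun w2 => Sm c w fun w4 => ev E x w2 x w4 ^ 2) = Ks c w E x := rfl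
  rw [e2, e3, e4, k14, k23, k24, h1, k13]
  ring

omit [DecidableEq J] in
theorem F2_expand {B : J → J → ℝ} (hB : ∀ i j, B i j = B j i) (x : J → ℝ) :
    F2 B (fun f => f x + Sm c w f) = F2 B (Sm c w) + 2 * Ph2 c w B x + ev2 B x x ^ 2 := by
  simp only [F2, Sm_add]
  have e2 : Sm c w (fun w1 => ev2 B w1 x ^ 2) = Ph2 c w B x := by
    have : ∀ a, ev2 B a x ^ 2 = ev2 B x a ^ 2 := fun a => by rw [ev2_symm hB]
    simp only [this, Ph2]
  have h1 : Sm c w (fun w2 => ev2 B x w2 ^ 2) = Ph2 c w B x := rfl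
  rw [e2, h1]
  ring

/-- the sign vector of `ε` -/
def sv (ε : J → Bool) : J → ℝ := fun i => sg (ε i)

variable {c w} (hc : ∀ r, 0 ≤ c r) (j : ℕ)

include hc

theorem Ph_Bd (E : J → J → J → J → ℝ) :
    Bd j (fun ε => Ph c w E (sv ε)) (2 * j * ∑ i, Ph c w E (Pi.single i 1)) := by
  have h1 : ∀ w2 w3 w4 : J → ℝ, Bd j (fun ε => ev E (sv ε) w2 w3 w4 ^ 2)
      (2 * j * ∑ i, ev E (Pi.single i 1) w2 w3 w4 ^ 2) := by
    intro w2 w3 w4
    have := chaos_lin (J := J) j Finset.univ 0 (fun i => ev E (Pi.single i 1) w2 w3 w4)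
    simp only [zero_add, zero_pow two_ne_zero] at this
    have e : ∀ ε : J → Bool, ∑ i, sg (ε i) * ev E (Pi.single i 1) w2 w3 w4 =
        ev E (sv ε) w2 w3 w4 := fun ε => (ev_lin1 _ _ _ _).symm
    simpa only [e] using this
  have h2 : Bd j (fun ε => Ph c w E (sv ε))
      (Sm c w fun w2 => Sm c w fun w3 => Sm c w fun w4 =>
        2 * j * ∑ i, ev E (Pi.single i 1) w2 w3 w4 ^ 2) :=
    Sm_Bd w hc fun w2 => Sm_Bd w hc fun w3 => Sm_Bd w hc fun w4 => h1 w2 w3 w4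
  simpa only [Sm_mul_left, Sm_sum, Ph] using h2

theorem Ph2_Bd (B : J → J → ℝ) :
    Bd j (fun ε => Ph2 c w B (sv ε)) (2 * j * ∑ i, Ph2 c w B (Pi.single i 1)) := by
  have h1 : ∀ w2 : J → ℝ, Bd j (fun ε => ev2 B (sv ε) w2 ^ 2)
      (2 * j * ∑ i, ev2 B (Pi.single i 1) w2 ^ 2) := by
    intro w2
    have := chaos_lin (J := J) j Finset.univ 0 (fun i => ev2 B (Pi.single i 1) w2)
    simp only [zero_add, zero_pow two_ne_zero] at this
    have e : ∀ ε : J → Bool, ∑ i, sg (ε i) * ev2 B (Pi.single i 1) w2 =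
        ev2 B (sv ε) w2 := fun ε => (ev2_lin1 _ _ _).symm
    simpa only [e] using this
  have h2 : Bd j (fun ε => Ph2 c w B (sv ε))
      (Sm c w fun w2 => 2 * j * ∑ i, ev2 B (Pi.single i 1) w2 ^ 2) :=
    Sm_Bd w hc fun w2 => h1 w2
  simpa only [Sm_mul_left, Sm_sum, Ph2] using h2

omit hc in
theorem quad_Bd (f : (J → ℝ) → ℝ) (q : J → J → ℝ)
    (hf : ∀ ε : J → Bool, f (sv ε) = ∑ i, ∑ k, sg (ε i) * sg (ε k) * q i k) :
    Bd j (fun ε => f (sv ε) ^ 2) ((∑ i, q i i) ^ 2 + 8 * j ^ 2 * ∑ i, ∑ k, q i k ^ 2) := by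
  have h1 := chaos_quad (J := J) j Finset.univ (∑ i, q i i) (fun i k => if i = k then 0 else q i k)
    (fun i => by simp)
  have h2 : (∑ i, q i i) ^ 2 + 8 * (j : ℝ) ^ 2 * ∑ i, ∑ k, (if i = k then 0 else q i k) ^ 2 ≤
      (∑ i, q i i) ^ 2 + 8 * (j : ℝ) ^ 2 * ∑ i, ∑ k, q i k ^ 2 := by
    have : ∑ i, ∑ k, (if i = k then 0 else q i k) ^ 2 ≤ ∑ i, ∑ k, q i k ^ 2 := by
      refine Finset.sum_le_sum fun i _ => Finset.sum_le_sum fun k _ => ?_
      split_ifs
      · simpa using sq_nonneg _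
      · exact le_rfl
    have := mul_le_mul_of_nonneg_left this (by positivity : (0 : ℝ) ≤ 8 * (j : ℝ) ^ 2)
    linarith
  refine (Bd.mono ?_ h2)
  convert h1 using 1
  ext ε
  rw [hf]
  congr 1
  have e : ∀ i, ∑ k, sg (ε i) * sg (ε k) * q i k =
      q i i + ∑ k, sg (ε i) * sg (ε k) * (if i = k then 0 else q i k) := by
    intro i
    rw [← Finset.add_sum_erase _ _ (Finset.mem_univ i),
      ← Finset.add_sum_erase (s := Finset.univ)
        (f := fun k => sg (ε i) * sg (ε k) * (if i = k then 0 else q i k)) (h := Finset.mem_univ i)]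
    simp only [sg_mul_self, one_mul, if_true]
    rw [zero_add]
    congr 1
    refine Finset.sum_congr rfl fun k hk => ?_
    rw [if_neg (Finset.ne_of_mem_erase hk).symm]
  simp only [e, Finset.sum_add_distrib]

theorem Ks_Bd (hE : Sym4 E) :
    Bd j (fun ε => Ks c w E (sv ε)) (F2 (ricc E) (Sm c w) + 8 * j ^ 2 *
      ∑ i, ∑ k, Sm c w fun w2 => Sm c w fun w4 =>
        ev E (Pi.single i 1) w2 (Pi.single k 1) w4 ^ 2) := by
  have h1 : ∀ w2 w4 : J → ℝ, Bd j (fun ε => ev E (sv ε) w2 (sv ε) w4 ^ 2)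
      (ev2 (ricc E) w2 w4 ^ 2 +
        8 * j ^ 2 * ∑ i, ∑ k, ev E (Pi.single i 1) w2 (Pi.single k 1) w4 ^ 2) := by
    intro w2 w4
    have := quad_Bd (J := J) j (fun x => ev E x w2 x w4)
      (fun i k => ev E (Pi.single i 1) w2 (Pi.single k 1) w4) (fun ε => by
        rw [ev_lin1]
        refine Finset.sum_congr rfl fun i _ => ?_
        rw [ev_lin3 hE, Finset.mul_sum]
        exact Finset.sum_congr rfl fun k _ => by simp only [sv]; ring)
    simpa only [ev_trace] using this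
  have h2 : Bd j (fun ε => Ks c w E (sv ε))
      (Sm c w fun w2 => Sm c w fun w4 => (ev2 (ricc E) w2 w4 ^ 2 +
        8 * j ^ 2 * ∑ i, ∑ k, ev E (Pi.single i 1) w2 (Pi.single k 1) w4 ^ 2)) :=
    Sm_Bd w hc fun w2 => Sm_Bd w hc fun w4 => h1 w2 w4
  simpa only [Sm_mul_left, Sm_sum, Sm_add, F2] using h2

omit hc in
theorem Kt_Bd {B : J → J → ℝ} (hB : ∀ i j, B i j = B j i) (hB0 : ∑ i, B i i = 0) :
    Bd j (fun ε => ev2 B (sv ε) (sv ε) ^ 2)
      (8 * j ^ 2 * ∑ i, ∑ k, ev2 B (Pi.single i 1) (Pi.single k 1) ^ 2) := by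
  have := quad_Bd (J := J) j (fun x => ev2 B x x)
    (fun i k => ev2 B (Pi.single i 1) (Pi.single k 1)) (fun ε => by
      rw [ev2_lin1]
      refine Finset.sum_congr rfl fun i _ => ?_
      rw [ev2_symm hB, ev2_lin1, Finset.mul_sum]
      exact Finset.sum_congr rfl fun k _ => by
        rw [ev2_symm hB (Pi.single k 1)]; simp only [sv]; ring)
  simpa only [ev2_trace, hB0, zero_pow two_ne_zero, zero_add] using this

end expand

section numerics

theorem num_sum (k : ℕ) (hk : 0 < k) :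
    ∑ j ∈ Finset.range (k + 1), (k.choose j : ℝ) * (0.22 * (j / k)) ^ j ≤ 5 / 2 := by
  have hk' : (0 : ℝ) < k := by exact_mod_cast hk
  have h1 : ∀ j ∈ Finset.range (k + 1), (k.choose j : ℝ) * (0.22 * (j / k)) ^ j ≤ (3 / 5 : ℝ) ^ j := by
    intro j _
    have h2 : (k.choose j : ℝ) ≤ (k : ℝ) ^ j / (j.factorial : ℝ) := Nat.choose_le_pow_div j k
    have h3 : (j : ℝ) ^ j / (j.factorial : ℝ) ≤ Real.exp j :=
      Real.pow_div_factorial_le_exp (j : ℝ) (by positivity) j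
    have h4 : (k.choose j : ℝ) * ((j : ℝ) / k) ^ j ≤ Real.exp 1 ^ j := by
      calc (k.choose j : ℝ) * ((j : ℝ) / k) ^ j
          ≤ ((k : ℝ) ^ j / (j.factorial : ℝ)) * ((j : ℝ) / k) ^ j :=
            mul_le_mul_of_nonneg_right h2 (by positivity)
        _ = (j : ℝ) ^ j / (j.factorial : ℝ) := by
            rw [div_pow]; field_simp
        _ ≤ Real.exp j := h3
        _ = Real.exp 1 ^ j := by rw [← Real.exp_nat_mul, mul_one]
    have h5 : (0.22 : ℝ) * Real.exp 1 ≤ 3 / 5 := by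
      have := Real.exp_one_lt_d9
      nlinarith
    calc (k.choose j : ℝ) * (0.22 * (j / k)) ^ j
        = 0.22 ^ j * ((k.choose j : ℝ) * ((j : ℝ) / k) ^ j) := by rw [mul_pow]; ring
      _ ≤ 0.22 ^ j * Real.exp 1 ^ j := mul_le_mul_of_nonneg_left h4 (by positivity)
      _ = (0.22 * Real.exp 1) ^ j := by rw [mul_pow]
      _ ≤ (3 / 5) ^ j := pow_le_pow_left₀ (by positivity) h5 j
  refine (Finset.sum_le_sum h1).trans ?_
  rw [geom_sum_eq (by norm_num), div_le_iff_of_neg (by norm_num)]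
  have : (0 : ℝ) ≤ (3 / 5) ^ (k + 1) := by positivity
  linarith

theorem av_pow_step {Ω : Type*} [Fintype Ω] [Nonempty Ω] (k : ℕ) (hk : 0 < k) (V : ℝ) (hV : 0 ≤ V)
    (G : Ω → ℝ)
    (hG : ∀ j : ℕ, 1 ≤ j → j ≤ k → av (fun ω => G ω ^ j) ≤ (0.22 * (j / k) * V) ^ j) :
    av (fun ω => (V + G ω) ^ k) ≤ 5 / 2 * V ^ k := by
  have h1 : av (fun ω => (V + G ω) ^ k) =
      ∑ j ∈ Finset.range (k + 1), av (fun ω => G ω ^ j) * (V ^ (k - j) * k.choose j) := by
    have : (fun ω => (V + G ω) ^ k) = fun ω =>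
        ∑ j ∈ Finset.range (k + 1), G ω ^ j * (V ^ (k - j) * k.choose j) := by
      ext ω
      rw [add_comm, add_pow]
      exact Finset.sum_congr rfl fun j _ => by ring
    rw [this, av_sum]
    exact Finset.sum_congr rfl fun j _ => av_mul_right _ _
  rw [h1]
  have h2 : ∀ j ∈ Finset.range (k + 1), av (fun ω => G ω ^ j) * (V ^ (k - j) * k.choose j) ≤
      ((k.choose j : ℝ) * (0.22 * (j / k)) ^ j) * V ^ k := by
    intro j hj
    have hjk : j ≤ k := Nat.lt_succ_iff.mp (Finset.mem_range.mp hj)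
    have h3 : av (fun ω => G ω ^ j) ≤ (0.22 * (j / k) * V) ^ j := by
      rcases Nat.eq_zero_or_pos j with h0 | h0
      · subst h0; simp [av_const]
      · exact hG j h0 hjk
    calc av (fun ω => G ω ^ j) * (V ^ (k - j) * k.choose j)
        ≤ (0.22 * (j / k) * V) ^ j * (V ^ (k - j) * k.choose j) :=
          mul_le_mul_of_nonneg_right h3 (by positivity)
      _ = ((k.choose j : ℝ) * (0.22 * (j / k)) ^ j) * (V ^ j * V ^ (k - j)) := by
          rw [mul_pow]; ring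
      _ = _ := by rw [← pow_add, Nat.add_sub_cancel' hjk]
  refine (Finset.sum_le_sum h2).trans ?_
  rw [← Finset.sum_mul]
  exact mul_le_mul_of_nonneg_right (num_sum k hk) (by positivity)

end numerics

section onestep

variable {R : Type*} [Fintype R] {c : R → ℝ} {w : R → J → ℝ}

/-- the potential -/
def Fh (E : J → J → J → J → ℝ) (β : ℝ) (S : ((J → ℝ) → ℝ) → ℝ) : ℝ :=
  F4 E S + β * F2 (ricc E) S

theorem one_step (hE : Sym4 E) (hscal : ∑ i, ricc E i i = 0) (hc : ∀ r, 0 ≤ c r) (k : ℕ)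
    (hk : 0 < k)
    (hdom : ∀ f : (J → ℝ) → ℝ, (∀ x, 0 ≤ f x) →
      (40 * k : ℝ) * ∑ i, f (Pi.single i 1) ≤ Sm c w f) :
    av (fun ε : J → Bool => Fh E (40 * k) (fun f => f (sv ε) + Sm c w f) ^ k) ≤
      5 / 2 * Fh E (40 * k) (Sm c w) ^ k := by
  have hk' : (0 : ℝ) < k := by exact_mod_cast hk
  have hsym : ∀ i j, ricc E i j = ricc E j i := ricc_symm hE
  have hF4 : 0 ≤ F4 E (Sm c w) := Sm_nonneg w hc fun _ => Sm_nonneg w hc fun _ =>
    Sm_nonneg w hc fun _ => Sm_nonneg w hc fun _ => sq_nonneg _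
  have hF2 : 0 ≤ F2 (ricc E) (Sm c w) := Sm_nonneg w hc fun _ => Sm_nonneg w hc fun _ => sq_nonneg _
  have hV : 0 ≤ Fh E (40 * k) (Sm c w) := by unfold Fh; positivity
  -- domination
  have d1 : (40 * k : ℝ) * ∑ i, Ph c w E (Pi.single i 1) ≤ F4 E (Sm c w) :=
    hdom (Ph c w E) fun x => Sm_nonneg w hc fun _ => Sm_nonneg w hc fun _ =>
      Sm_nonneg w hc fun _ => sq_nonneg _
  have d3 : (40 * k : ℝ) * ∑ i, Ph2 c w (ricc E) (Pi.single i 1) ≤ F2 (ricc E) (Sm c w) :=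
    hdom (Ph2 c w (ricc E)) fun x => Sm_nonneg w hc fun _ => sq_nonneg _
  have d2 : (40 * k : ℝ) ^ 2 * ∑ i, ∑ m, (Sm c w fun w2 => Sm c w fun w4 =>
      ev E (Pi.single i 1) w2 (Pi.single m 1) w4 ^ 2) ≤ F4 E (Sm c w) := by
    refine le_trans ?_ d1
    rw [pow_two, mul_assoc]
    refine mul_le_mul_of_nonneg_left ?_ (by positivity)
    rw [Finset.mul_sum]
    refine Finset.sum_le_sum fun i _ => ?_
    rw [← Sm_sum, ← Sm_mul_left]
    refine Sm_mono w hc fun w2 => ?_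
    exact hdom (fun x => Sm c w fun w4 => ev E (Pi.single i 1) w2 x w4 ^ 2)
      fun x => Sm_nonneg w hc fun _ => sq_nonneg _
  have d4 : (40 * k : ℝ) ^ 2 * ∑ i, ∑ m, ev2 (ricc E) (Pi.single i 1) (Pi.single m 1) ^ 2 ≤
      F2 (ricc E) (Sm c w) := by
    refine le_trans ?_ d3
    rw [pow_two, mul_assoc]
    refine mul_le_mul_of_nonneg_left ?_ (by positivity)
    rw [Finset.mul_sum]
    refine Finset.sum_le_sum fun i _ => ?_
    exact hdom (fun x => ev2 (ricc E) (Pi.single i 1) x ^ 2) fun x => sq_nonneg _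
  set a1 := ∑ i, Ph c w E (Pi.single i 1)
  set a2 := ∑ i, ∑ m, (Sm c w fun w2 => Sm c w fun w4 =>
      ev E (Pi.single i 1) w2 (Pi.single m 1) w4 ^ 2)
  set b1 := ∑ i, Ph2 c w (ricc E) (Pi.single i 1)
  set b2 := ∑ i, ∑ m, ev2 (ricc E) (Pi.single i 1) (Pi.single m 1) ^ 2
  set f4 := F4 E (Sm c w)
  set f2 := F2 (ricc E) (Sm c w)
  have hexp : ∀ ε : J → Bool, Fh E (40 * k) (fun f => f (sv ε) + Sm c w f) =
      Fh E (40 * k) (Sm c w) + (4 * Ph c w E (sv ε) + 4 * Ks c w E (sv ε) +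
        40 * k * (2 * Ph2 c w (ricc E) (sv ε) + ev2 (ricc E) (sv ε) (sv ε) ^ 2)) := by
    intro ε
    unfold Fh
    rw [F4_expand c w hE, F2_expand c w hsym]
    ring
  simp only [hexp]
  refine av_pow_step k hk _ hV _ fun j hj1 hjk => ?_
  have hB : Bd j (fun ε : J → Bool => 4 * Ph c w E (sv ε) + 4 * Ks c w E (sv ε) +
        40 * k * (2 * Ph2 c w (ricc E) (sv ε) + ev2 (ricc E) (sv ε) (sv ε) ^ 2))
      (4 * (2 * j * a1) + 4 * (f2 + 8 * j ^ 2 * a2) +
        40 * k * (2 * (2 * j * b1) + 8 * j ^ 2 * b2)) :=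
    (((Ph_Bd hc j E).smul (by norm_num)).add ((Ks_Bd hc j hE).smul (by norm_num))).add
      ((((Ph2_Bd hc j (ricc E)).smul (by norm_num)).add (Kt_Bd j hsym hscal)).smul (by positivity))
  have hj' : (1 : ℝ) ≤ j := by exact_mod_cast hj1
  have hjk' : (j : ℝ) ≤ k := by exact_mod_cast hjk
  set t : ℝ := (j : ℝ) / k with ht
  have htj : (j : ℝ) = t * k := by rw [ht]; field_simp
  have ht1 : t ≤ 1 := by rw [ht, div_le_one hk']; exact hjk'
  have ht0 : 0 < t := by rw [ht]; positivity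
  have hle : 4 * (2 * j * a1) + 4 * (f2 + 8 * j ^ 2 * a2) +
        40 * k * (2 * (2 * j * b1) + 8 * j ^ 2 * b2) ≤ 0.22 * t * Fh E (40 * k) (Sm c w) := by
    have e1 : 4 * (2 * j * a1) ≤ 0.2 * t * f4 := by
      rw [htj]
      have := mul_le_mul_of_nonneg_left d1 ht0.le
      nlinarith
    have e2 : 32 * (j : ℝ) ^ 2 * a2 ≤ 0.02 * t * f4 := by
      rw [htj]
      have h1 := mul_le_mul_of_nonneg_left d2 (by positivity : 0 ≤ t ^ 2)
      have h2 : t ^ 2 * f4 ≤ t * f4 := by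
        refine mul_le_mul_of_nonneg_right ?_ hF4
        nlinarith
      nlinarith
    have e3 : 4 * f2 ≤ 0.1 * t * (40 * k * f2) := by
      have : 1 * f2 ≤ j * f2 := mul_le_mul_of_nonneg_right hj' hF2
      rw [htj] at this
      nlinarith
    have e4 : 40 * k * (2 * (2 * j * b1)) ≤ 0.1 * t * (40 * k * f2) := by
      rw [htj]
      have := mul_le_mul_of_nonneg_left d3 (by positivity : 0 ≤ t * k)
      nlinarith
    have e5 : 40 * k * (8 * j ^ 2 * b2) ≤ 0.005 * t * (40 * k * f2) := by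
      rw [htj]
      have h1 := mul_le_mul_of_nonneg_left d4 (by positivity : 0 ≤ t ^ 2 * k)
      have h2 : t ^ 2 * (k * f2) ≤ t * (k * f2) := by
        refine mul_le_mul_of_nonneg_right ?_ (by positivity)
        nlinarith
      nlinarith
    have e6 : 0 ≤ t * (40 * k * f2) := by positivity
    have e7 : Fh E (40 * k) (Sm c w) = f4 + 40 * k * f2 := rfl
    rw [e7]
    nlinarith
  exact (hB.mono hle).2.2

end onestep

end Pool.Agent.W666.GB
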